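import Mathlib
import Pool.Agent.R329.Par.Pow

/-!
# The conjugates of a Salem number
-/

set_option autoImplicit false

namespace Pool.Agent.K9h56.PD

open Polynomial Pool.Agent.H196R3.Parry Pool.Agent.R329.Par

/-- Salem numbers -/
def IsSalem (β : ℝ) : Prop :=
  1 < β ∧ IsIntegral ℤ β ∧ (∀ z : ℂ, aeval z (minpoly ℤ β) = 0 → z ≠ (β : ℂ) → ‖z‖ ≤ 1) ∧
    ∃ z : ℂ, aeval z (minpoly ℤ β) = 0 ∧ ‖z‖ = 1

theorem mem_ac {β : ℝ} (hint : IsIntegral ℤ β) {z : ℂ} (hz : aeval z (minpoly ℤ β) = 0) :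
    z ∈ algebraicClosure ℚ ℂ := by
  rw [mem_algebraicClosure_iff]
  refine ⟨(minpoly ℤ β).map (algebraMap ℤ ℚ), ?_, ?_⟩
  · exact ((minpoly.monic hint).map _).ne_zero
  · rw [aeval_map_algebraMap, hz]

theorem exists_aut {β : ℝ} (hint : IsIntegral ℤ β) {z w : ℂ} (hz : aeval z (minpoly ℤ β) = 0)
    (hw : aeval w (minpoly ℤ β) = 0) :
    ∃ σ : algebraicClosure ℚ ℂ ≃ₐ[ℚ] algebraicClosure ℚ ℂ, σ ⟨z, mem_ac hint hz⟩ = ⟨w, mem_ac hint hw⟩ := by
  have hinj : Function.Injective (algebraMap (algebraicClosure ℚ ℂ) ℂ) :=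
    (algebraMap (algebraicClosure ℚ ℂ) ℂ).injective
  have hconj : IsConjRoot ℚ (⟨w, mem_ac hint hw⟩ : algebraicClosure ℚ ℂ) ⟨z, mem_ac hint hz⟩ := by
    unfold IsConjRoot
    rw [← minpoly.algebraMap_eq hinj, ← minpoly.algebraMap_eq hinj]
    exact (minpoly_conj hint hw).trans (minpoly_conj hint hz).symm
  have hac : IsAlgClosure ℚ (algebraicClosure ℚ ℂ) := algebraicClosure.isAlgClosure ℚ ℂ
  have hnor : Normal ℚ (algebraicClosure ℚ ℂ) := IsAlgClosure.normal ℚ _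
  obtain ⟨σ, hσ⟩ := hconj.exists_algEquiv
  exact ⟨σ, hσ⟩

theorem aut_root {β : ℝ} (σ : algebraicClosure ℚ ℂ ≃ₐ[ℚ] algebraicClosure ℚ ℂ)
    {y : algebraicClosure ℚ ℂ} (hy : aeval (y : ℂ) (minpoly ℤ β) = 0) :
    aeval ((σ y : algebraicClosure ℚ ℂ) : ℂ) (minpoly ℤ β) = 0 := by
  have hinj : Function.Injective (algebraMap (algebraicClosure ℚ ℂ) ℂ) :=
    (algebraMap (algebraicClosure ℚ ℂ) ℂ).injective
  have h4 : aeval y (minpoly ℤ β) = 0 := by
    apply hinj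
    rw [map_zero, ← aeval_algebraMap_apply]
    exact hy
  have h5 : aeval (σ y) (minpoly ℤ β) = 0 := by
    have h6 : aeval (σ y) (minpoly ℤ β) = σ (aeval y (minpoly ℤ β)) := by
      exact (aeval_algHom_apply (σ.toAlgHom.restrictScalars ℤ) y (minpoly ℤ β))
    rw [h6, h4, map_zero]
  have h7 : aeval (algebraMap (algebraicClosure ℚ ℂ) ℂ (σ y)) (minpoly ℤ β) = 0 := by
    rw [aeval_algebraMap_apply, h5, map_zero]
  exact h7

theorem conj_root {β : ℝ} {z : ℂ} (hz : aeval z (minpoly ℤ β) = 0) :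
    aeval ((starRingEnd ℂ) z) (minpoly ℤ β) = 0 := by
  have h1 : aeval ((starRingEnd ℂ) z) (minpoly ℤ β) = (starRingEnd ℂ) (aeval z (minpoly ℤ β)) := by
    rw [aeval_def, aeval_def, hom_eval₂]
    congr 1
    exact Subsingleton.elim _ _
  rw [h1, hz, map_zero]

variable {β : ℝ}

theorem IsSalem.perron (h : IsSalem β) : ∀ z : ℂ, aeval z (minpoly ℤ β) = 0 → z ≠ (β : ℂ) → ‖z‖ < β :=
  fun z hz hne => (h.2.2.1 z hz hne).trans_lt h.1

theorem IsSalem.inv_root (h : IsSalem β) {z : ℂ} (hz : aeval z (minpoly ℤ β) = 0) :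
    aeval z⁻¹ (minpoly ℤ β) = 0 := by
  obtain ⟨hβ, hint, hone, w, hw, hw1⟩ := h
  have hwi : aeval w⁻¹ (minpoly ℤ β) = 0 := by
    have h1 : w⁻¹ = (starRingEnd ℂ) w := by
      rw [Complex.inv_def, Complex.normSq_eq_norm_sq, hw1]; simp
    rw [h1]; exact conj_root hw
  obtain ⟨σ, hσ⟩ := exists_aut hint hw hz
  have h1 := aut_root σ (y := ⟨w⁻¹, mem_ac hint hwi⟩) hwi
  have h2 : σ ⟨w⁻¹, mem_ac hint hwi⟩ = (⟨z, mem_ac hint hz⟩ : algebraicClosure ℚ ℂ)⁻¹ := by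
    rw [← hσ, ← map_inv₀]
    congr 1
  rw [h2] at h1
  exact h1

theorem IsSalem.norm_one (h : IsSalem β) {z : ℂ} (hz : aeval z (minpoly ℤ β) = 0) (h1 : z ≠ (β : ℂ))
    (h2 : z ≠ (β : ℂ)⁻¹) : ‖z‖ = 1 := by
  have h3 := h.2.2.1 z hz h1
  have h4 := h.2.2.1 z⁻¹ (h.inv_root hz) (by
    intro h5
    apply h2
    rw [← h5, inv_inv])
  have hz0 : z ≠ 0 := conj_ne_zero h.1 h.2.1 hz
  rw [norm_inv] at h4
  have h5 : 0 < ‖z‖ := norm_pos_iff.2 hz0
  have h6 : 1 ≤ ‖z‖ := by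
    by_contra hcon
    rw [not_le] at hcon
    have := (one_lt_inv₀ h5).2 hcon
    linarith
  exact le_antisymm h3 h6

theorem ne_int (hβ : 1 < β) (hint : IsIntegral ℤ β) {z : ℂ} (hz : aeval z (minpoly ℤ β) = 0)
    (c : ℚ) (hc : (c : ℝ) ≤ 1) : z ≠ (c : ℂ) := by
  intro hzc
  have h1 := minpoly_conj hint hz
  have h2 : minpoly ℚ z = X - C c := by
    rw [hzc]
    exact minpoly.eq_X_sub_C ℂ c
  have h3 : aeval (β : ℂ) ((minpoly ℤ β).map (algebraMap ℤ ℚ)) = 0 := by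
    rw [aeval_map_algebraMap]; exact aeval_self
  rw [← h1, h2, map_sub, aeval_X, aeval_C] at h3
  have h4 : (β : ℂ) = ((c : ℝ) : ℂ) := by
    rw [sub_eq_zero] at h3
    rw [h3]
    simp
  have h5 : β = (c : ℝ) := by exact_mod_cast h4
  linarith

theorem IsSalem.im_ne (h : IsSalem β) {z : ℂ} (hz : aeval z (minpoly ℤ β) = 0) (h1 : z ≠ (β : ℂ))
    (h2 : z ≠ (β : ℂ)⁻¹) : z.im ≠ 0 := by
  intro him
  have h3 := h.norm_one hz h1 h2
  have h4 : z = (z.re : ℂ) := by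
    apply Complex.ext <;> simp [him]
  rw [h4, Complex.norm_real, Real.norm_eq_abs] at h3
  rcases eq_or_eq_neg_of_abs_eq h3 with h5 | h5
  · refine ne_int h.1 h.2.1 hz 1 (by norm_num) ?_
    rw [h4, h5]; simp
  · refine ne_int h.1 h.2.1 hz (-1) (by norm_num) ?_
    rw [h4, h5]; simp

/-- the conjugates -/
noncomputable def SS (β : ℝ) : Finset ℂ := ((minpoly ℤ β).map (Int.castRingHom ℂ)).roots.toFinset

theorem mem_SS (hint : IsIntegral ℤ β) {z : ℂ} : z ∈ SS β ↔ aeval z (minpoly ℤ β) = 0 := by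
  unfold SS
  rw [Multiset.mem_toFinset, mem_roots ((minpoly.monic hint).map _).ne_zero, IsRoot.def, eval_map, aeval_def]
  rfl

theorem map_eq_prod (hint : IsIntegral ℤ β) :
    (minpoly ℤ β).map (Int.castRingHom ℂ) = ∏ z ∈ SS β, (X - C z) := by
  classical
  set f : ℂ[X] := (minpoly ℤ β).map (Int.castRingHom ℂ) with hf
  have hmon : f.Monic := (minpoly.monic hint).map _
  have hnodup : f.roots.Nodup := by
    have hintq : IsIntegral ℚ β := hint.tower_top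
    have h1 : (minpoly ℚ β).Separable := (minpoly.irreducible hintq).separable
    have h2 : ((minpoly ℚ β).map (algebraMap ℚ ℂ)).Separable := h1.map
    have h3 : (minpoly ℚ β).map (algebraMap ℚ ℂ) = f := by
      rw [minpoly.isIntegrallyClosed_eq_field_fractions' ℚ hint, Polynomial.map_map, hf]
      congr 1
    rw [h3] at h2
    exact nodup_roots h2
  have h1 : f = (f.roots.map (fun a => X - C a)).prod :=
    (IsAlgClosed.splits f).eq_prod_roots_of_monic hmon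
  conv_lhs => rw [h1]
  unfold SS
  rw [Finset.prod, ← hf, Multiset.toFinset_val, Multiset.dedup_eq_self.2 hnodup]

theorem natDegree_eq_card (hint : IsIntegral ℤ β) : (minpoly ℤ β).natDegree = (SS β).card := by
  have h1 := congrArg natDegree (map_eq_prod hint)
  rw [(minpoly.monic hint).natDegree_map, natDegree_prod_of_monic _ _ (fun z _ => monic_X_sub_C z)] at h1
  simpa using h1

/-- the conjugates of a power -/
theorem SS_pow (hint : IsIntegral ℤ β) {n : ℕ} : SS (β ^ n) = (SS β).image (fun z => z ^ n) := by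
  classical
  ext w
  rw [mem_SS (hint.pow n), Finset.mem_image]
  constructor
  · intro hw
    obtain ⟨z, hz, hzw⟩ := conj_pow hint hw
    exact ⟨z, (mem_SS hint).2 hz, hzw⟩
  · rintro ⟨z, hz, rfl⟩
    rw [mem_SS hint] at hz
    have h1 : aeval β ((minpoly ℤ (β ^ n)).comp (X ^ n)) = 0 := by
      rw [aeval_comp, map_pow, aeval_X, minpoly.aeval]
    have h2 : minpoly ℤ β ∣ (minpoly ℤ (β ^ n)).comp (X ^ n) := minpoly.isIntegrallyClosed_dvd hint h1
    obtain ⟨q, hq⟩ := h2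
    have h3 : aeval z ((minpoly ℤ (β ^ n)).comp (X ^ n)) = 0 := by
      rw [hq, map_mul, hz, zero_mul]
    rwa [aeval_comp, map_pow, aeval_X] at h3

theorem map_pow_eq_prod (h : IsSalem β) {n : ℕ} (hn : 1 ≤ n) :
    (minpoly ℤ (β ^ n)).map (Int.castRingHom ℂ) = ∏ z ∈ SS β, (X - C (z ^ n)) := by
  classical
  rw [map_eq_prod (h.2.1.pow n), SS_pow h.2.1, Finset.prod_image]
  intro x hx y hy hxy
  by_contra hne
  exact torsion_free h.1 h.2.1 h.perron ((mem_SS h.2.1).1 hx) ((mem_SS h.2.1).1 hy) hne (by omega) hxy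

end Pool.Agent.K9h56.PD
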