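import Mathlib
import Pool.Agent.K9h56.PD.AlgA

/-!
# The minimal polynomials of the powers of a Salem number
-/

set_option autoImplicit false

namespace Pool.Agent.K9h56.PD

open Polynomial Pool.Agent.H196R3.Parry Pool.Agent.R329.Par

/-- `X ^ 2 - 2 c X + 1` -/
noncomputable def quad (c : ℝ) : ℝ[X] := X ^ 2 - C (2 * c) * X + 1

theorem quad_eq (c : ℝ) : quad c = X ^ 2 + C (-(2 * c)) * X + C 1 := by
  unfold quad; rw [C_neg, C_1]; ring

theorem quad_monic (c : ℝ) : (quad c).Monic := by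
  rw [quad_eq]
  have h : (X ^ 2 + C (-(2 * c)) * X + C 1 : ℝ[X]) = C 1 * X ^ 2 + C (-(2 * c)) * X + C 1 := by
    rw [C_1]; ring
  rw [h]
  unfold Monic
  exact leadingCoeff_quadratic (by norm_num)

theorem quad_natDegree (c : ℝ) : (quad c).natDegree = 2 := by
  rw [quad_eq]
  have h : (X ^ 2 + C (-(2 * c)) * X + C 1 : ℝ[X]) = C 1 * X ^ 2 + C (-(2 * c)) * X + C 1 := by
    rw [C_1]; ring
  rw [h]
  exact natDegree_quadratic (by norm_num)

theorem quad_coeff_zero (c : ℝ) : (quad c).coeff 0 = 1 := by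
  unfold quad; simp

/-- the product of the polynomials `X ^ 2 - 2 c_j X + 1` -/
noncomputable def QQ {m : ℕ} (c : Fin m → ℝ) : ℝ[X] := ∏ j, quad (c j)

theorem QQ_monic {m : ℕ} (c : Fin m → ℝ) : (QQ c).Monic := monic_prod_of_monic _ _ fun j _ => quad_monic (c j)

theorem QQ_natDegree {m : ℕ} (c : Fin m → ℝ) : (QQ c).natDegree = 2 * m := by
  unfold QQ
  rw [natDegree_prod_of_monic _ _ (fun j _ => quad_monic (c j))]
  simp [quad_natDegree, mul_comm]

theorem QQ_coeff_zero {m : ℕ} (c : Fin m → ℝ) : (QQ c).coeff 0 = 1 := by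
  unfold QQ
  rw [coeff_zero_prod]
  simp [quad_coeff_zero]

variable {β : ℝ}

theorem ne_inv (hβ : 1 < β) : (β : ℂ)⁻¹ ≠ (β : ℂ) := by
  intro h
  have h1 : (β⁻¹ : ℝ) = β := by exact_mod_cast h
  have h2 : β⁻¹ < 1 := inv_lt_one_of_one_lt₀ hβ
  linarith

theorem prod_split (h : IsSalem β) {M : Type*} [CommMonoid M] (f : ℂ → M) :
    ∏ z ∈ SS β, f z = f β * (f (β : ℂ)⁻¹ *
      ∏ z ∈ (SS β).filter (fun z => 0 < z.im), (f z * f ((starRingEnd ℂ) z))) := by
  classical
  have hβ := h.1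
  have hint := h.2.1
  have m1 : (β : ℂ) ∈ SS β := (mem_SS hint).2 aeval_self
  have m2 : (β : ℂ)⁻¹ ∈ (SS β).erase (β : ℂ) :=
    Finset.mem_erase.2 ⟨ne_inv hβ, (mem_SS hint).2 (h.inv_root aeval_self)⟩
  rw [← Finset.mul_prod_erase _ _ m1, ← Finset.mul_prod_erase _ _ m2]
  congr 2
  set Z := ((SS β).erase (β : ℂ)).erase (β : ℂ)⁻¹ with hZ
  have memZ : ∀ z, z ∈ Z ↔ aeval z (minpoly ℤ β) = 0 ∧ z ≠ (β : ℂ) ∧ z ≠ (β : ℂ)⁻¹ := by
    intro z
    rw [hZ, Finset.mem_erase, Finset.mem_erase, mem_SS hint]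
    tauto
  rw [← Finset.prod_filter_mul_prod_filter_not Z (fun z => 0 < z.im), Finset.prod_mul_distrib]
  have e1 : Z.filter (fun z => 0 < z.im) = (SS β).filter (fun z => 0 < z.im) := by
    ext z
    rw [Finset.mem_filter, Finset.mem_filter, memZ, mem_SS hint]
    constructor
    · rintro ⟨⟨h1, _, _⟩, h2⟩; exact ⟨h1, h2⟩
    · rintro ⟨h1, h2⟩
      refine ⟨⟨h1, ?_, ?_⟩, h2⟩
      · rintro rfl; simp at h2
      · rintro rfl
        rw [← Complex.ofReal_inv, Complex.ofReal_im] at h2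
        exact lt_irrefl _ h2
  rw [e1]
  congr 1
  refine Finset.prod_nbij' (fun z => (starRingEnd ℂ) z) (fun z => (starRingEnd ℂ) z) ?_ ?_ ?_ ?_ ?_
  · intro z hz
    rw [Finset.mem_filter, memZ] at hz
    obtain ⟨⟨h1, h2, h3⟩, h4⟩ := hz
    rw [Finset.mem_filter, mem_SS hint]
    refine ⟨conj_root h1, ?_⟩
    have h5 := h.im_ne h1 h2 h3
    rw [Complex.conj_im]
    rcases lt_or_gt_of_ne h5 with h6 | h6
    · linarith
    · exact absurd h6 h4
  · intro z hz
    rw [Finset.mem_filter, mem_SS hint] at hz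
    obtain ⟨h1, h2⟩ := hz
    rw [Finset.mem_filter, memZ]
    refine ⟨⟨conj_root h1, ?_, ?_⟩, ?_⟩
    · intro h3
      have h4 := congrArg Complex.im h3
      rw [Complex.conj_im, Complex.ofReal_im] at h4
      linarith
    · intro h3
      have h4 := congrArg Complex.im h3
      rw [Complex.conj_im, ← Complex.ofReal_inv, Complex.ofReal_im] at h4
      linarith
    · rw [Complex.conj_im]; linarith
  · intro z _; simp
  · intro z _; simp
  · intro z _; simp

theorem quad_fac {z : ℂ} (hz : ‖z‖ = 1) (n : ℕ) :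
    (X - C (z ^ n)) * (X - C (((starRingEnd ℂ) z) ^ n)) =
      (quad (Real.cos (2 * Real.pi * (n * (z.arg / (2 * Real.pi)))))).map (algebraMap ℝ ℂ) := by
  have hpi : Real.pi ≠ 0 := Real.pi_ne_zero
  have h0 : 2 * Real.pi * (n * (z.arg / (2 * Real.pi))) = n * z.arg := by field_simp
  have h1 : z = Complex.exp (z.arg * Complex.I) := by
    have := Complex.norm_mul_exp_arg_mul_I z
    rw [hz] at this
    simpa using this.symm
  have h2 : z ^ n = Complex.exp ((n * z.arg : ℝ) * Complex.I) := by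
    conv_lhs => rw [h1]
    rw [← Complex.exp_nat_mul]
    congr 1; push_cast; ring
  have h3 : ((starRingEnd ℂ) z) ^ n = (starRingEnd ℂ) (z ^ n) := (map_pow _ _ _).symm
  have h4 : z ^ n + (starRingEnd ℂ) (z ^ n) = ((2 * Real.cos (n * z.arg) : ℝ) : ℂ) := by
    rw [Complex.add_conj, h2, Complex.exp_ofReal_mul_I_re]
  have h5 : z ^ n * (starRingEnd ℂ) (z ^ n) = 1 := by
    rw [Complex.mul_conj, Complex.normSq_eq_norm_sq, norm_pow, hz]; simp
  rw [h0, h3]
  have h6 : (X - C (z ^ n)) * (X - C ((starRingEnd ℂ) (z ^ n))) =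
      X ^ 2 - C (z ^ n + (starRingEnd ℂ) (z ^ n)) * X + C (z ^ n * (starRingEnd ℂ) (z ^ n)) := by
    rw [C_add, C_mul]; ring
  rw [h6, h4, h5]
  unfold quad
  simp only [Polynomial.map_add, Polynomial.map_sub, Polynomial.map_mul, Polynomial.map_pow, map_X, map_C,
    Polynomial.map_one, C_1]
  rfl

/-- the data attached to a Salem number -/
theorem salem_data (h : IsSalem β) : ∃ m : ℕ, 1 ≤ m ∧ ∃ θ : Fin m → ℝ,
    (∀ n : ℕ, 1 ≤ n → (minpoly ℤ (β ^ n)).natDegree = 2 * m + 2 ∧
      (minpoly ℤ (β ^ n)).map (Int.castRingHom ℝ) = (X - C (β ^ n)) * ((X - C (β ^ n)⁻¹) *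
        QQ (fun j => Real.cos (2 * Real.pi * (n * θ j))))) ∧
    (∀ k : Fin m → ℤ, k ≠ 0 → Irrational (∑ j, (k j : ℝ) * θ j)) := by
  classical
  have hβ := h.1
  have hint := h.2.1
  set Sp := (SS β).filter (fun z => 0 < z.im) with hSp
  have hroot : ∀ z ∈ Sp, aeval z (minpoly ℤ β) = 0 ∧ z ≠ (β : ℂ) ∧ z ≠ (β : ℂ)⁻¹ ∧ 0 < z.im := by
    intro z hz
    rw [hSp, Finset.mem_filter, mem_SS hint] at hz
    obtain ⟨h1, h2⟩ := hz
    refine ⟨h1, ?_, ?_, h2⟩
    · rintro rfl; simp at h2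
    · rintro rfl
      rw [← Complex.ofReal_inv, Complex.ofReal_im] at h2
      exact lt_irrefl _ h2
  have hn1 : ∀ z ∈ Sp, ‖z‖ = 1 := fun z hz => h.norm_one (hroot z hz).1 (hroot z hz).2.1 (hroot z hz).2.2.1
  set e := Sp.equivFin with he
  set zz : Fin Sp.card → ℂ := fun j => ((e.symm j : Sp) : ℂ) with hzz
  have hzzmem : ∀ j, zz j ∈ Sp := fun j => (e.symm j).2
  have hprod : ∀ {M : Type} [CommMonoid M] (f : ℂ → M), ∏ z ∈ Sp, f z = ∏ j, f (zz j) := by
    intro M _ f
    rw [← Finset.prod_coe_sort Sp f]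
    exact (Equiv.prod_comp e.symm (fun z : Sp => f (z : ℂ))).symm
  have hfac : ∀ n : ℕ, 1 ≤ n →
      (minpoly ℤ (β ^ n)).map (Int.castRingHom ℝ) = (X - C (β ^ n)) * ((X - C (β ^ n)⁻¹) *
        QQ (fun j => Real.cos (2 * Real.pi * (n * ((zz j).arg / (2 * Real.pi)))))) := by
    intro n hn
    apply Polynomial.map_injective (algebraMap ℝ ℂ) (algebraMap ℝ ℂ).injective
    rw [Polynomial.map_map]
    have h1 : ((algebraMap ℝ ℂ).comp (Int.castRingHom ℝ)) = Int.castRingHom ℂ := by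
      ext; simp
    rw [h1, map_pow_eq_prod h hn, prod_split h]
    rw [Polynomial.map_mul, Polynomial.map_mul]
    congr 1
    · simp
    congr 1
    · simp
    · rw [hprod (fun z => (X - C (z ^ n)) * (X - C (((starRingEnd ℂ) z) ^ n)))]
      unfold QQ
      rw [Polynomial.map_prod]
      apply Finset.prod_congr rfl
      intro j _
      exact quad_fac (hn1 _ (hzzmem j)) n
  refine ⟨Sp.card, ?_, fun j => (zz j).arg / (2 * Real.pi), ?_, ?_⟩
  · obtain ⟨w, hw, hw1⟩ := h.2.2.2
    have w1 : w ≠ (β : ℂ) := by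
      rintro rfl
      rw [Complex.norm_real, Real.norm_eq_abs, abs_of_pos (by linarith)] at hw1
      linarith
    have w2 : w ≠ (β : ℂ)⁻¹ := by
      rintro rfl
      rw [norm_inv, Complex.norm_real, Real.norm_eq_abs, abs_of_pos (by linarith)] at hw1
      have := inv_lt_one_of_one_lt₀ hβ
      linarith
    have h5 := h.im_ne hw w1 w2
    apply Finset.card_pos.2
    rcases lt_or_gt_of_ne h5 with h6 | h6
    · refine ⟨(starRingEnd ℂ) w, ?_⟩
      rw [hSp, Finset.mem_filter, mem_SS hint]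
      exact ⟨conj_root hw, by rw [Complex.conj_im]; linarith⟩
    · refine ⟨w, ?_⟩
      rw [hSp, Finset.mem_filter, mem_SS hint]
      exact ⟨hw, h6⟩
  · intro n hn
    refine ⟨?_, hfac n hn⟩
    have h1 := congrArg natDegree (hfac n hn)
    rw [(minpoly.monic (hint.pow n)).natDegree_map] at h1
    rw [h1, (monic_X_sub_C _).natDegree_mul ((monic_X_sub_C _).mul (QQ_monic _)),
      (monic_X_sub_C _).natDegree_mul (QQ_monic _), natDegree_X_sub_C, natDegree_X_sub_C, QQ_natDegree]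
    ring
  · intro k hk
    rw [Irrational]
    rintro ⟨r, hr⟩
    -- multiplicative relation
    set b : ℕ := r.den with hb
    have hb0 : (b : ℝ) ≠ 0 := by exact_mod_cast r.den_nz
    have hpi : (Real.pi : ℂ) ≠ 0 := by exact_mod_cast Real.pi_ne_zero
    have hexp : ∀ j, zz j = Complex.exp (((zz j).arg : ℝ) * Complex.I) := by
      intro j
      have := Complex.norm_mul_exp_arg_mul_I (zz j)
      rw [hn1 _ (hzzmem j)] at this
      simpa using this.symm
    have hrel : ∏ j, (zz j) ^ ((b : ℤ) * k j) = 1 := by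
      have h1 : ∀ j, (zz j) ^ ((b : ℤ) * k j) =
          Complex.exp ((((b : ℤ) * k j : ℤ) : ℂ) * (((zz j).arg : ℝ) * Complex.I)) := by
        intro j
        conv_lhs => rw [hexp j]
        rw [← Complex.exp_int_mul]
      simp_rw [h1]
      rw [← Complex.exp_sum]
      have h2 : ∑ j, ((((b : ℤ) * k j : ℤ) : ℂ) * (((zz j).arg : ℝ) * Complex.I)) =
          ((b * ∑ j, (k j : ℝ) * ((zz j).arg / (2 * Real.pi)) : ℝ) : ℂ) * (2 * Real.pi * Complex.I) := by
        push_cast
        rw [Finset.mul_sum, Finset.sum_mul]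
        apply Finset.sum_congr rfl
        intro j _
        field_simp
      rw [h2, ← hr]
      have h3 : ((b * (r : ℝ) : ℝ) : ℂ) = ((r.num : ℤ) : ℂ) := by
        have h4 : (b : ℝ) * (r : ℝ) = (r.num : ℝ) := by
          have := Rat.den_mul_eq_num r
          rw [hb]
          exact_mod_cast this
        rw [h4]; push_cast; rfl
      rw [h3]
      exact Complex.exp_int_mul_two_pi_mul_I r.num
    -- an automorphism
    obtain ⟨j0, hj0⟩ : ∃ j, k j ≠ 0 := by
      by_contra hc; push Not at hc; exact hk (funext hc)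
    have hz0 := (hroot _ (hzzmem j0)).1
    obtain ⟨σ, hσ⟩ := exists_aut hint hz0 (aeval_self (β := β))
    set y : Fin Sp.card → algebraicClosure ℚ ℂ := fun j => ⟨zz j, mem_ac hint (hroot _ (hzzmem j)).1⟩ with hy
    have hrel' : ∏ j, (y j) ^ ((b : ℤ) * k j) = 1 := by
      apply (algebraMap (algebraicClosure ℚ ℂ) ℂ).injective
      rw [map_prod, map_one]
      simp_rw [map_zpow₀]
      exact hrel
    have h1 := congrArg σ hrel'
    rw [map_prod, map_one] at h1
    simp_rw [map_zpow₀] at h1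
    have h2 := congrArg (fun u : algebraicClosure ℚ ℂ => ‖(u : ℂ)‖) h1
    have h3 : ((∏ j, (σ (y j)) ^ ((b : ℤ) * k j) : algebraicClosure ℚ ℂ) : ℂ) =
        ∏ j, ((σ (y j) : algebraicClosure ℚ ℂ) : ℂ) ^ ((b : ℤ) * k j) := by
      have h4 := map_prod (algebraMap (algebraicClosure ℚ ℂ) ℂ) (fun j => (σ (y j)) ^ ((b : ℤ) * k j)) Finset.univ
      simp_rw [map_zpow₀] at h4
      exact h4
    change ‖((∏ j, (σ (y j)) ^ ((b : ℤ) * k j) : algebraicClosure ℚ ℂ) : ℂ)‖ = ‖((1 : algebraicClosure ℚ ℂ) : ℂ)‖ at h2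
    rw [h3, norm_prod] at h2
    have h5 : ∀ j, j ≠ j0 → ‖((σ (y j) : algebraicClosure ℚ ℂ) : ℂ)‖ = 1 := by
      intro j hj
      have hzj := hroot _ (hzzmem j)
      have r1 := aut_root (β := β) σ (y := y j) hzj.1
      have hne : zz j ≠ zz j0 := by
        intro h6
        apply hj
        have h7 : e.symm j = e.symm j0 := Subtype.ext h6
        exact e.symm.injective h7
      apply h.norm_one r1
      · intro h6
        apply hne
        have h7 : σ (y j) = σ (y j0) := by
          rw [show σ (y j0) = ⟨(β : ℂ), mem_ac hint aeval_self⟩ from hσ]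
          exact Subtype.ext h6
        have h8 : y j = y j0 := σ.injective h7
        exact congrArg (fun u : algebraicClosure ℚ ℂ => (u : ℂ)) h8
      · intro h6
        have h7 : σ (y j) = σ ((y j0)⁻¹) := by
          rw [map_inv₀, show σ (y j0) = ⟨(β : ℂ), mem_ac hint aeval_self⟩ from hσ]
          exact Subtype.ext h6
        have h8 := congrArg Subtype.val (σ.injective h7)
        have h9 : zz j = (zz j0)⁻¹ := h8
        have h10 : (zz j0)⁻¹ = (starRingEnd ℂ) (zz j0) := by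
          rw [Complex.inv_def, Complex.normSq_eq_norm_sq, hn1 _ (hzzmem j0)]; simp
        rw [h10] at h9
        have h11 := congrArg Complex.im h9
        rw [Complex.conj_im] at h11
        have h12 := (hroot _ (hzzmem j0)).2.2.2
        have h13 := hzj.2.2.2
        linarith
    rw [Finset.prod_eq_single j0] at h2
    · rw [norm_zpow] at h2
      have h6 : ((σ (y j0) : algebraicClosure ℚ ℂ) : ℂ) = (β : ℂ) := congrArg Subtype.val hσ
      rw [h6, Complex.norm_real, Real.norm_eq_abs, abs_of_pos (by linarith)] at h2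
      have h7 : β ^ ((b : ℤ) * k j0) = 1 := by simpa using h2
      have h8 : (b : ℤ) * k j0 = 0 := by
        by_contra hne
        exact hne ((zpow_eq_one_iff_right₀ (by linarith) (by linarith)).1 h7)
      rcases mul_eq_zero.1 h8 with h9 | h9
      · exact r.den_nz (by exact_mod_cast h9)
      · exact hj0 h9
    · intro j _ hj
      rw [norm_zpow, h5 j hj, one_zpow]
    · intro h6; exact absurd (Finset.mem_univ _) h6

end Pool.Agent.K9h56.PD
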