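import Mathlib
import Pool.Agent.H196R3.Parry

/-!
# Expansions of `1` read off from a factorization of an integer polynomial
-/

set_option autoImplicit false

namespace Pool.Agent.K9h56.PD

open Polynomial Pool.Agent.H196R3.Parry

theorem finite_orb {B : ℝ} {a b : ℕ} (hab : a < b) (h : orb B b = orb B a) :
    (Set.range (orb B)).Finite := by
  have h1 : ∀ n : ℕ, ∃ i : ℕ, i < b ∧ orb B n = orb B i := by
    intro n
    induction n with
    | zero => exact ⟨0, by omega, rfl⟩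
    | succ n ih =>
      obtain ⟨i, hi, hn⟩ := ih
      have h2 : orb B (n + 1) = orb B (i + 1) := by rw [orb_succ, orb_succ, hn]
      rcases Nat.lt_or_ge (i + 1) b with h3 | h3
      · exact ⟨i + 1, h3, h2⟩
      · have h4 : i + 1 = b := by omega
        exact ⟨a, hab, by rw [h2, h4, h]⟩
  apply (Set.finite_lt_nat b).image (orb B) |>.subset
  rintro _ ⟨n, rfl⟩
  obtain ⟨i, hi, hn⟩ := h1 n
  exact ⟨i, hi, hn.symm⟩

/-- the quotient by `X - B` -/
noncomputable def HH (B : ℝ) (g : ℝ[X]) : ℝ[X] := (X - C B⁻¹) * g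

theorem HH_coeff_succ (B : ℝ) (g : ℝ[X]) (j : ℕ) : (HH B g).coeff (j + 1) = g.coeff j - B⁻¹ * g.coeff (j + 1) := by
  unfold HH
  rw [sub_mul, coeff_sub, coeff_X_mul, coeff_C_mul]

theorem HH_coeff_zero (B : ℝ) (g : ℝ[X]) : (HH B g).coeff 0 = - (B⁻¹ * g.coeff 0) := by
  unfold HH
  rw [sub_mul, coeff_sub, coeff_C_mul]
  simp

theorem HH_rec {B : ℝ} {F : ℤ[X]} {g : ℝ[X]}
    (hF : F.map (Int.castRingHom ℝ) = (X - C B) * ((X - C B⁻¹) * g)) (j : ℕ) :
    (HH B g).coeff j = B * (HH B g).coeff (j + 1) + (F.coeff (j + 1) : ℤ) := by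
  have h1 : (F.map (Int.castRingHom ℝ)).coeff (j + 1) = ((F.coeff (j + 1) : ℤ) : ℝ) := by
    rw [coeff_map]; rfl
  rw [← h1, hF]
  change (HH B g).coeff j = B * (HH B g).coeff (j + 1) + ((X - C B) * HH B g).coeff (j + 1)
  rw [sub_mul, coeff_sub, coeff_X_mul, coeff_C_mul]
  ring

/-- the value of `HH` at the index `k` from the top -/
theorem HH_top {B : ℝ} {g : ℝ[X]} {D : ℕ} (hg : g.Monic) (hD : g.natDegree = D) : (HH B g).coeff (D + 1) = 1 := by
  rw [HH_coeff_succ]
  have h1 : g.coeff D = 1 := by rw [← hD]; exact hg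
  have h2 : g.coeff (D + 1) = 0 := coeff_eq_zero_of_natDegree_lt (by omega)
  rw [h1, h2]; ring

theorem orb_eq_of_mem {B : ℝ} {F : ℤ[X]} {g : ℝ[X]} {D : ℕ} (hg : g.Monic) (hD : g.natDegree = D)
    (hF : F.map (Int.castRingHom ℝ) = (X - C B) * ((X - C B⁻¹) * g)) (K : ℕ) (hK : K ≤ D + 1)
    (h : ∀ k, 1 ≤ k → k ≤ K → 0 ≤ (HH B g).coeff (D + 1 - k) ∧ (HH B g).coeff (D + 1 - k) < 1) :
    ∀ k, k ≤ K → orb B k = (HH B g).coeff (D + 1 - k) := by
  intro k
  induction k with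
  | zero =>
    intro _
    rw [orb_zero, Nat.sub_zero, HH_top hg hD]
  | succ k ih =>
    intro hk
    rw [orb_succ, ih (by omega)]
    have h1 : D + 1 - k = (D + 1 - (k + 1)) + 1 := by omega
    have h2 := HH_rec hF (D + 1 - (k + 1))
    rw [← h1] at h2
    have h3 : B * (HH B g).coeff (D + 1 - k) =
        (HH B g).coeff (D + 1 - (k + 1)) - (F.coeff (D + 1 - k) : ℤ) := by linarith
    rw [h3, Int.fract_sub_intCast]
    obtain ⟨h4, h5⟩ := h (k + 1) (by omega) hk
    exact Int.fract_eq_self.2 ⟨h4, h5⟩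

/-- the expansion of `1` read off from `F` -/
theorem closes {B : ℝ} (hB : 1 < B) {F : ℤ[X]} {g : ℝ[X]} {D : ℕ} (hg : g.Monic)
    (hD : g.natDegree = D) (hg0 : g.coeff 0 = 1)
    (hF : F.map (Int.castRingHom ℝ) = (X - C B) * ((X - C B⁻¹) * g))
    (h : ∀ k, 0 < k → k < D → B⁻¹ < g.coeff k ∧ g.coeff k < 1) : orb B (D + 2) = orb B 1 := by
  have hB0 : 0 < B := by linarith
  have hBi : 0 < B⁻¹ := inv_pos.2 hB0
  have hBi1 : B⁻¹ < 1 := inv_lt_one_of_one_lt₀ hB
  have hgD : g.coeff D = 1 := by rw [← hD]; exact hg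
  have hpos : ∀ k, k ≤ D → B⁻¹ < g.coeff k ∧ g.coeff k ≤ 1 := by
    intro k hk
    rcases Nat.eq_zero_or_pos k with h0 | h0
    · rw [h0, hg0]; exact ⟨hBi1, le_rfl⟩
    rcases Nat.lt_or_ge k D with h1 | h1
    · exact ⟨(h k h0 h1).1, (h k h0 h1).2.le⟩
    · have : k = D := by omega
      rw [this, hgD]; exact ⟨hBi1, le_rfl⟩
  have hmem : ∀ k, 1 ≤ k → k ≤ D → 0 ≤ (HH B g).coeff (D + 1 - k) ∧ (HH B g).coeff (D + 1 - k) < 1 := by
    intro k hk1 hk2
    have h1 : D + 1 - k = (D - k) + 1 := by omega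
    rw [h1, HH_coeff_succ]
    obtain ⟨h2, h3⟩ := hpos (D - k) (by omega)
    obtain ⟨h4, h5⟩ := hpos (D - k + 1) (by omega)
    have h6 : B⁻¹ * g.coeff (D - k + 1) ≤ B⁻¹ := by nlinarith
    have h7 : 0 < B⁻¹ * g.coeff (D - k + 1) := mul_pos hBi (by linarith)
    constructor
    · linarith
    · linarith
  have h1 := orb_eq_of_mem hg hD hF D (by omega) hmem D le_rfl
  have h2 : D + 1 - D = 1 := by omega
  rw [h2] at h1
  have h3 : orb B (D + 1) = 1 - B⁻¹ := by
    rw [orb_succ, h1]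
    have h4 := HH_rec hF 0
    rw [HH_coeff_zero, hg0] at h4
    have h5 : B * (HH B g).coeff (0 + 1) = (1 - B⁻¹) - ((1 + F.coeff (0 + 1) : ℤ) : ℝ) := by
      push_cast
      linarith
    rw [zero_add] at h5
    rw [h5, Int.fract_sub_intCast]
    exact Int.fract_eq_self.2 ⟨by linarith, by linarith⟩
  rw [show D + 2 = (D + 1) + 1 by rfl, orb_succ, h3, orb_succ, orb_zero, mul_one]
  have h6 : B * (1 - B⁻¹) = B - ((1 : ℤ) : ℝ) := by
    push_cast
    field_simp
  rw [h6, Int.fract_sub_intCast]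

/-- the integer polynomials whose values at `B` are the points of the orbit of `1` -/
noncomputable def RR (B : ℝ) : ℕ → ℤ[X]
  | 0 => 1
  | k + 1 => X * RR B k - C ⌊B * orb B k⌋

theorem RR_eval (B : ℝ) (k : ℕ) : aeval B (RR B k) = orb B k := by
  induction k with
  | zero => simp [RR, orb_zero]
  | succ k ih =>
    rw [RR, map_sub, map_mul, aeval_X, ih, orb_succ', aeval_C]
    simp

theorem RR_monic (B : ℝ) (k : ℕ) : (RR B k).Monic ∧ (RR B k).natDegree = k := by
  induction k with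
  | zero => exact ⟨monic_one, natDegree_one⟩
  | succ k ih =>
    obtain ⟨h1, h2⟩ := ih
    have h3 : (X * RR B k).Monic := monic_X.mul h1
    have h4 : (X * RR B k).natDegree = k + 1 := by
      rw [monic_X.natDegree_mul h1, natDegree_X, h2, add_comm]
    have h5 : (C ⌊B * orb B k⌋ : ℤ[X]).degree < (X * RR B k).degree := by
      apply lt_of_le_of_lt degree_C_le
      rw [degree_eq_natDegree h3.ne_zero, h4]
      exact_mod_cast Nat.succ_pos k
    rw [RR]
    refine ⟨h3.sub_of_left h5, ?_⟩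
    rw [natDegree_sub_C, h4]

theorem RR_coeff (B : ℝ) (k j : ℕ) : (RR B (k + 1 + j)).coeff j = - ⌊B * orb B k⌋ := by
  induction j with
  | zero =>
    rw [add_zero, RR, coeff_sub, coeff_C_zero]
    simp
  | succ j ih =>
    rw [show k + 1 + (j + 1) = (k + 1 + j) + 1 by ring, RR, coeff_sub, coeff_X_mul, coeff_C_succ, ih, sub_zero]

/-- the converse: the minimal polynomial and the shortest possible expansion -/
theorem of_closes {B : ℝ} (hint : IsIntegral ℤ B) {g : ℝ[X]} {D : ℕ} (hg : g.Monic)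
    (hD : g.natDegree = D) (hdeg : (minpoly ℤ B).natDegree = D + 2)
    (hF : (minpoly ℤ B).map (Int.castRingHom ℝ) = (X - C B) * ((X - C B⁻¹) * g))
    (h : orb B (D + 2) = orb B 1) : ∀ k, k ≤ D → orb B k = (HH B g).coeff (D + 1 - k) := by
  have h1 : (RR B (D + 2) - RR B 1).Monic ∧ (RR B (D + 2) - RR B 1).natDegree = D + 2 := by
    obtain ⟨m1, d1⟩ := RR_monic B (D + 2)
    obtain ⟨m2, d2⟩ := RR_monic B 1
    have hlt : (RR B 1).degree < (RR B (D + 2)).degree := by
      rw [degree_eq_natDegree m1.ne_zero, degree_eq_natDegree m2.ne_zero, d1, d2]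
      exact_mod_cast (by omega : 1 < D + 2)
    exact ⟨m1.sub_of_left hlt, by rw [natDegree_sub_eq_left_of_natDegree_lt (by omega), d1]⟩
  have h2 : aeval B (RR B (D + 2) - RR B 1) = 0 := by
    rw [map_sub, RR_eval, RR_eval, h, sub_self]
  have h3 : minpoly ℤ B ∣ RR B (D + 2) - RR B 1 := minpoly.isIntegrallyClosed_dvd hint h2
  have h4 : RR B (D + 2) - RR B 1 = minpoly ℤ B :=
    (Polynomial.eq_of_monic_of_dvd_of_natDegree_le (minpoly.monic hint) h1.1 h3 (by rw [h1.2, hdeg]))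
  intro k
  induction k with
  | zero =>
    intro _
    rw [orb_zero, Nat.sub_zero, HH_top hg hD]
  | succ k ih =>
    intro hk
    have h5 : D + 1 - k = (D + 1 - (k + 1)) + 1 := by omega
    have h6 := HH_rec hF (D + 1 - (k + 1))
    rw [← h5] at h6
    have h7 : (minpoly ℤ B).coeff (D + 1 - k) = - ⌊B * orb B k⌋ := by
      rw [← h4, coeff_sub]
      have h8 : (RR B 1).coeff (D + 1 - k) = 0 := by
        apply coeff_eq_zero_of_natDegree_lt
        rw [(RR_monic B 1).2]; omega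
      have h9 := RR_coeff B k (D + 1 - k)
      rw [show k + 1 + (D + 1 - k) = D + 2 by omega] at h9
      rw [h8, h9, sub_zero]
    rw [h6, h7, ← ih (by omega), orb_succ']
    push_cast
    ring

end Pool.Agent.K9h56.PD
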