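import Mathlib
import Pool.Agent.K9h56.PD.AlgB

/-!
# A product of polynomials `X ^ 2 - 2 c X + 1` with all middle coefficients between `0` and `1`
-/

set_option autoImplicit false

namespace Pool.Agent.K9h56.PD

open Polynomial Finset

/-- numerators -/
noncomputable def Nu (α : ℝ) (N k : ℕ) : ℝ := ∏ j ∈ range k, Real.sin (((N : ℝ) - j) * α)
/-- denominators -/
noncomputable def De (α : ℝ) (k : ℕ) : ℝ := ∏ j ∈ range k, Real.sin (((j : ℝ) + 1) * α)

theorem Nu_succ (α : ℝ) (N k : ℕ) : Nu α N (k + 1) = Nu α N k * Real.sin (((N : ℝ) - k) * α) := by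
  unfold Nu; rw [prod_range_succ]

theorem De_succ (α : ℝ) (k : ℕ) : De α (k + 1) = De α k * Real.sin (((k : ℝ) + 1) * α) := by
  unfold De; rw [prod_range_succ]

theorem Nu_two (α : ℝ) (N k : ℕ) : Nu α (N + 2) (k + 2) =
    Real.sin (((N : ℝ) + 2) * α) * Real.sin (((N : ℝ) + 1) * α) * Nu α N k := by
  unfold Nu
  rw [prod_range_succ', prod_range_succ']
  have h1 : ∏ j ∈ range k, Real.sin ((((N + 2 : ℕ) : ℝ) - ((j + 1 + 1 : ℕ) : ℝ)) * α) =
      ∏ j ∈ range k, Real.sin (((N : ℝ) - j) * α) := by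
    apply Finset.prod_congr rfl
    intro j _
    congr 1; push_cast; ring
  rw [h1]
  have h2 : (((N + 2 : ℕ) : ℝ) - ((0 + 1 : ℕ) : ℝ)) * α = ((N : ℝ) + 1) * α := by push_cast; ring
  have h3 : (((N + 2 : ℕ) : ℝ) - ((0 : ℕ) : ℝ)) * α = ((N : ℝ) + 2) * α := by push_cast; ring
  rw [h2, h3]; ring

theorem Nu_zero (α : ℝ) {N k : ℕ} (h : N < k) : Nu α N k = 0 := by
  unfold Nu
  apply Finset.prod_eq_zero (mem_range.2 h)
  rw [sub_self, zero_mul, Real.sin_zero]

theorem trig (A V α : ℝ) : Real.sin (A + α) * Real.sin A = Real.sin (A - V + α) * Real.sin (A - V) +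
    2 * Real.cos A * Real.sin (A - V + α) * Real.sin V + Real.sin (V - α) * Real.sin V := by
  have h1 := Real.two_mul_sin_mul_sin (A + α) A
  have h2 := Real.two_mul_sin_mul_sin (A - V + α) (A - V)
  have h3 := Real.two_mul_sin_mul_sin (A - V + α) V
  have h4 := Real.two_mul_sin_mul_sin (V - α) V
  have h5 := Real.two_mul_cos_mul_cos A (A - 2 * V + α)
  have h6 := Real.two_mul_cos_mul_cos A (A + α)
  have e1 : A + α - A = α := by ring
  have e2 : A + α + A = 2 * A + α := by ring
  have e3 : A - V + α - (A - V) = α := by ring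
  have e4 : A - V + α + (A - V) = 2 * A - 2 * V + α := by ring
  have e5 : A - V + α - V = A - 2 * V + α := by ring
  have e6 : A - V + α + V = A + α := by ring
  have e7 : V - α - V = -α := by ring
  have e8 : V - α + V = 2 * V - α := by ring
  have e9 : A - (A - 2 * V + α) = 2 * V - α := by ring
  have e10 : A + (A - 2 * V + α) = 2 * A - 2 * V + α := by ring
  have e11 : A - (A + α) = -α := by ring
  have e12 : A + (A + α) = 2 * A + α := by ring
  rw [e1, e2] at h1
  rw [e3, e4] at h2
  rw [e5, e6] at h3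
  rw [e7, e8, Real.cos_neg] at h4
  rw [e9, e10] at h5
  rw [e11, e12, Real.cos_neg] at h6
  linear_combination (1 / 2) * h1 - (1 / 2) * h2 - Real.cos A * h3 - (1 / 2) * h4 - (1 / 2) * h5 + (1 / 2) * h6

theorem quad_mul_coeff (P : ℝ[X]) (c : ℝ) (k : ℕ) :
    (P * quad c).coeff (k + 2) = P.coeff (k + 2) - 2 * c * P.coeff (k + 1) + P.coeff k := by
  have h : P * quad c = P * X ^ 2 - C (2 * c) * (P * X) + P := by unfold quad; ring
  rw [h, coeff_add, coeff_sub, coeff_C_mul, coeff_mul_X_pow, coeff_mul_X]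
  ring

theorem quad_mul_coeff_one (P : ℝ[X]) (c : ℝ) :
    (P * quad c).coeff 1 = P.coeff 1 - 2 * c * P.coeff 0 := by
  have h : P * quad c = P * X ^ 2 - C (2 * c) * (P * X) + P := by unfold quad; ring
  rw [h, coeff_add, coeff_sub, coeff_C_mul, coeff_mul_X_pow', coeff_mul_X]
  simp; ring

theorem quad_mul_coeff_zero (P : ℝ[X]) (c : ℝ) : (P * quad c).coeff 0 = P.coeff 0 := by
  rw [mul_coeff_zero, quad_coeff_zero, mul_one]

/-- the product -/
noncomputable def PP (α : ℝ) (i : ℕ) : ℝ[X] := ∏ l ∈ range i, quad (- Real.cos ((2 * (l : ℝ) + 1) * α))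

theorem PP_succ (α : ℝ) (i : ℕ) : PP α (i + 1) = PP α i * quad (- Real.cos ((2 * (i : ℝ) + 1) * α)) := by
  unfold PP; rw [prod_range_succ]

theorem PP_coeff {α : ℝ} {m : ℕ} (h0 : 0 < α) (hm : 2 * (m : ℝ) * α < Real.pi) :
    ∀ i, i ≤ m → ∀ k, (PP α i).coeff k * De α k = Nu α (2 * i) k := by
  intro i
  induction i with
  | zero =>
    intro _ k
    unfold PP
    rw [prod_range_zero]
    rcases Nat.eq_zero_or_pos k with hk | hk
    · subst hk; simp [De, Nu]
    · rw [Nu_zero α (by omega), coeff_one, if_neg (by omega), zero_mul]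
  | succ i ih =>
    intro hi k
    have ih := ih (by omega)
    have hne : ∀ j : ℕ, 1 ≤ j → j ≤ 2 * m → Real.sin ((j : ℝ) * α) ≠ 0 := by
      intro j h1 h2
      apply ne_of_gt
      apply Real.sin_pos_of_pos_of_lt_pi
      · have : (1 : ℝ) ≤ j := by exact_mod_cast h1
        positivity
      · have : (j : ℝ) ≤ 2 * m := by exact_mod_cast h2
        nlinarith
    rw [PP_succ]
    match k with
    | 0 =>
      rw [quad_mul_coeff_zero]
      have := ih 0
      simp only [Nu, De, prod_range_zero] at this ⊢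
      exact this
    | 1 =>
      rw [quad_mul_coeff_one]
      have i0 := ih 0
      have i1 := ih 1
      simp only [Nu, De, prod_range_zero, prod_range_one] at i0 i1 ⊢
      have e1 : Real.sin ((((2 * (i + 1) : ℕ) : ℝ) - ((0 : ℕ) : ℝ)) * α) =
          Real.sin ((2 * (i : ℝ) + 1) * α + α) := by congr 1; push_cast; ring
      have e2 : Real.sin ((((2 * i : ℕ) : ℝ) - ((0 : ℕ) : ℝ)) * α) =
          Real.sin ((2 * (i : ℝ) + 1) * α - α) := by congr 1; push_cast; ring
      have e3 : (((0 : ℕ) : ℝ) + 1) * α = α := by push_cast; ring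
      rw [e2, e3] at i1
      rw [e1, e3]
      rw [mul_one] at i0
      rw [i0]
      rw [Real.sin_add]
      rw [Real.sin_sub] at i1
      linear_combination i1
    | k + 2 =>
      rw [quad_mul_coeff]
      have i0 := ih k
      have i1 := ih (k + 1)
      have i2 := ih (k + 2)
      rw [show 2 * (i + 1) = 2 * i + 2 by ring, Nu_two]
      rw [De_succ, De_succ] at i2 ⊢
      rw [De_succ] at i1
      rw [Nu_succ, Nu_succ] at i2
      rw [Nu_succ] at i1
      by_cases hk : 2 * i < k
      · have z0 : Nu α (2 * i) k = 0 := Nu_zero α hk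
        have c0 : (PP α i).coeff k = 0 := by
          apply coeff_eq_zero_of_natDegree_lt
          unfold PP
          rw [natDegree_prod_of_monic _ _ (fun l _ => quad_monic _)]
          simp [quad_natDegree]; omega
        have c1 : (PP α i).coeff (k + 1) = 0 := by
          apply coeff_eq_zero_of_natDegree_lt
          unfold PP
          rw [natDegree_prod_of_monic _ _ (fun l _ => quad_monic _)]
          simp [quad_natDegree]; omega
        have c2 : (PP α i).coeff (k + 2) = 0 := by
          apply coeff_eq_zero_of_natDegree_lt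
          unfold PP
          rw [natDegree_prod_of_monic _ _ (fun l _ => quad_monic _)]
          simp [quad_natDegree]; omega
        rw [c0, c1, c2, z0]; ring
      · rw [not_lt] at hk
        have n1 := hne (k + 1) (by omega) (by omega)
        have n2 := hne (k + 2) (by omega) (by omega)
        set A := (2 * (i : ℝ) + 1) * α with hA
        set V := ((k : ℝ) + 2) * α with hV
        have e1 : ((((2 * i : ℕ) : ℝ)) + 2) * α = A + α := by rw [hA]; push_cast; ring
        have e2 : ((((2 * i : ℕ) : ℝ)) + 1) * α = A := by rw [hA]; push_cast; ring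
        have e3 : ((((2 * i : ℕ) : ℝ)) - k) * α = A - V + α := by rw [hA, hV]; push_cast; ring
        have e4 : ((((2 * i : ℕ) : ℝ)) - ((k + 1 : ℕ) : ℝ)) * α = A - V := by rw [hA, hV]; push_cast; ring
        have e5 : ((k : ℝ) + 1) * α = V - α := by rw [hV]; ring
        have e6 : (((k + 1 : ℕ) : ℝ) + 1) * α = V := by rw [hV]; push_cast; ring
        rw [e3, e4, e5, e6] at i2
        rw [e3, e5] at i1
        rw [e1, e2, e5, e6]
        have ht := trig A V α
        linear_combination i2 + 2 * Real.cos A * Real.sin V * i1 + Real.sin (V - α) * Real.sin V * i0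
          - Nu α (2 * i) k * ht

theorem reflect_quad (c : ℝ) : reflect 2 (quad c) = quad c := by
  ext n
  rw [coeff_reflect, quad_eq]
  match n with
  | 0 => simp [revAt_le, coeff_one]
  | 1 => simp [revAt_le]
  | 2 => simp [revAt_le, coeff_one]
  | n + 3 => rw [revAt_eq_self_of_lt (by omega)]

theorem reflect_PP (α : ℝ) (i : ℕ) : (PP α i).natDegree = 2 * i ∧ reflect (2 * i) (PP α i) = PP α i := by
  induction i with
  | zero =>
    unfold PP
    rw [prod_range_zero]
    refine ⟨natDegree_one, ?_⟩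
    ext n
    rw [coeff_reflect]
    match n with
    | 0 => simp
    | n + 1 => rw [revAt_eq_self_of_lt (by omega)]
  | succ i ih =>
    obtain ⟨h1, h2⟩ := ih
    have hm : (PP α i).Monic := by unfold PP; exact monic_prod_of_monic _ _ fun l _ => quad_monic _
    rw [PP_succ]
    refine ⟨?_, ?_⟩
    · rw [hm.natDegree_mul (quad_monic _), h1, quad_natDegree]; ring
    · rw [show 2 * (i + 1) = 2 * i + 2 by ring, reflect_mul _ _ h1.le (quad_natDegree _).le, h2, reflect_quad]

theorem PP_mid {m : ℕ} (hm : 1 ≤ m) : ∃ α : ℝ, ∀ k, 0 < k → k < 2 * m → 0 < (PP α m).coeff k ∧ (PP α m).coeff k < 1 := by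
  have hm1 : (1 : ℝ) ≤ m := by exact_mod_cast hm
  have hpi := Real.pi_pos
  set α : ℝ := Real.pi * (4 * m + 1) / (2 * m * (2 * m + 1)) / 2 with hα
  have h1 : Real.pi < (2 * m + 1) * α := by
    rw [hα]
    have : (2 * (m : ℝ) + 1) * (Real.pi * (4 * m + 1) / (2 * m * (2 * m + 1)) / 2) =
        Real.pi * ((4 * m + 1) / (4 * m)) := by field_simp; norm_num
    rw [this]
    have h2 : (1 : ℝ) < (4 * m + 1) / (4 * m) := by
      rw [one_lt_div (by positivity)]; linarith
    nlinarith
  have h2 : 2 * (m : ℝ) * α < Real.pi := by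
    rw [hα]
    have : 2 * (m : ℝ) * (Real.pi * (4 * m + 1) / (2 * m * (2 * m + 1)) / 2) =
        Real.pi * ((4 * m + 1) / (4 * m + 2)) := by field_simp; ring
    rw [this]
    have h3 : ((4 * m + 1) / (4 * m + 2) : ℝ) < 1 := by
      rw [div_lt_one (by positivity)]; linarith
    nlinarith
  have h0 : 0 < α := by rw [hα]; positivity
  refine ⟨α, ?_⟩
  have key : ∀ k, k ≤ m → 0 < k → 0 < (PP α m).coeff k ∧ (PP α m).coeff k < 1 := by
    intro k hk hk0
    have h3 := PP_coeff h0 h2 m le_rfl k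
    have hDe : 0 < De α k := by
      unfold De
      apply Finset.prod_pos
      intro j hj
      rw [mem_range] at hj
      apply Real.sin_pos_of_pos_of_lt_pi (by positivity)
      have : (j : ℝ) + 1 ≤ m := by exact_mod_cast (by omega : j + 1 ≤ m)
      nlinarith
    have h4 : (PP α m).coeff k = Nu α (2 * m) k / De α k := by
      rw [eq_div_iff hDe.ne']; exact h3
    have h5 : Nu α (2 * m) k / De α k = ∏ j ∈ range k,
        (Real.sin (((2 * m : ℕ) - (j : ℝ)) * α) / Real.sin (((j : ℝ) + 1) * α)) := by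
      unfold Nu De
      rw [Finset.prod_div_distrib]
    rw [h4, h5]
    have h6 : ∀ j ∈ range k, 0 < Real.sin (((2 * m : ℕ) - (j : ℝ)) * α) / Real.sin (((j : ℝ) + 1) * α) ∧
        Real.sin (((2 * m : ℕ) - (j : ℝ)) * α) / Real.sin (((j : ℝ) + 1) * α) < 1 := by
      intro j hj
      rw [mem_range] at hj
      have hj1 : (j : ℝ) + 1 ≤ m := by exact_mod_cast (by omega : j + 1 ≤ m)
      have hj0 : (0 : ℝ) ≤ j := by positivity
      have s1 : 0 < Real.sin (((j : ℝ) + 1) * α) := by
        apply Real.sin_pos_of_pos_of_lt_pi (by positivity)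
        nlinarith
      have e1 : Real.sin (((2 * m : ℕ) - (j : ℝ)) * α) = Real.sin (Real.pi - ((2 * m : ℕ) - (j : ℝ)) * α) :=
        (Real.sin_pi_sub _).symm
      have y0 : 0 < Real.pi - ((2 * m : ℕ) - (j : ℝ)) * α := by push_cast; nlinarith
      have y1 : Real.pi - ((2 * m : ℕ) - (j : ℝ)) * α < ((j : ℝ) + 1) * α := by push_cast; nlinarith
      have y2 : ((j : ℝ) + 1) * α < Real.pi / 2 := by nlinarith
      have s2 : 0 < Real.sin (Real.pi - ((2 * m : ℕ) - (j : ℝ)) * α) :=
        Real.sin_pos_of_pos_of_lt_pi y0 (by linarith)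
      have s3 : Real.sin (Real.pi - ((2 * m : ℕ) - (j : ℝ)) * α) < Real.sin (((j : ℝ) + 1) * α) :=
        Real.sin_lt_sin_of_lt_of_le_pi_div_two (by linarith) y2.le y1
      rw [e1]
      exact ⟨div_pos s2 s1, (div_lt_one s1).2 s3⟩
    refine ⟨Finset.prod_pos fun j hj => (h6 j hj).1, ?_⟩
    have h7 : ∏ j ∈ range k, (Real.sin (((2 * m : ℕ) - (j : ℝ)) * α) / Real.sin (((j : ℝ) + 1) * α)) <
        ∏ j ∈ range k, (1 : ℝ) := by
      apply Finset.prod_lt_prod_of_nonempty
      · intro j hj; exact (h6 j hj).1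
      · intro j hj; exact (h6 j hj).2
      · exact ⟨0, mem_range.2 hk0⟩
    simpa using h7
  intro k hk0 hk
  rcases Nat.lt_or_ge m k with h3 | h3
  · have h4 := (reflect_PP α m).2
    have h5 : (PP α m).coeff k = (PP α m).coeff (2 * m - k) := by
      conv_lhs => rw [← h4]
      rw [coeff_reflect, revAt_le hk.le]
    rw [h5]
    exact key _ (by omega) (by omega)
  · exact key k h3 hk0

theorem exists_point {m : ℕ} (hm : 1 ≤ m) : ∃ x : Fin m → ℝ, ∀ k, 0 < k → k < 2 * m →
    0 < (QQ (fun j => Real.cos (2 * Real.pi * x j))).coeff k ∧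
    (QQ (fun j => Real.cos (2 * Real.pi * x j))).coeff k < 1 := by
  obtain ⟨α, hα⟩ := PP_mid hm
  refine ⟨fun j => (Real.pi - (2 * ((j : ℕ) : ℝ) + 1) * α) / (2 * Real.pi), ?_⟩
  have h1 : QQ (fun j : Fin m => Real.cos (2 * Real.pi * ((Real.pi - (2 * ((j : ℕ) : ℝ) + 1) * α) / (2 * Real.pi)))) =
      PP α m := by
    unfold QQ PP
    rw [Finset.prod_range]
    apply Finset.prod_congr rfl
    intro j _
    congr 1
    have h2 : 2 * Real.pi * ((Real.pi - (2 * ((j : ℕ) : ℝ) + 1) * α) / (2 * Real.pi)) =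
        Real.pi - (2 * ((j : ℕ) : ℝ) + 1) * α := by
      have := Real.pi_ne_zero
      field_simp
    beta_reduce
    rw [h2, Real.cos_pi_sub]
  rw [h1]
  exact hα

end Pool.Agent.K9h56.PD
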