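import Mathlib
import Pool.Agent.H446R3.SK.Tor
import Pool.Agent.K9h56.PD.Point

/-!
# The polynomials attached to the points of the torus
-/

set_option autoImplicit false

namespace Pool.Agent.K9h56.PD

open Polynomial Finset MeasureTheory Pool.Agent.H446R3.SK

/-- `cos (2 π y)` -/
noncomputable def cs (y : UnitAddCircle) : ℝ := ((AddCircle.toCircle y : Circle) : ℂ).re

theorem cs_coe (t : ℝ) : cs (t : UnitAddCircle) = Real.cos (2 * Real.pi * t) := by
  unfold cs
  rw [AddCircle.toCircle_apply_mk, Circle.coe_exp, div_one, Complex.exp_ofReal_mul_I_re]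

theorem continuous_cs : Continuous cs :=
  Complex.continuous_re.comp (continuous_subtype_val.comp AddCircle.continuous_toCircle)

theorem vol_singleton (y : UnitAddCircle) : volume ({y} : Set UnitAddCircle) = 0 := by
  have h1 := AddCircle.volume_closedBall (1 : ℝ) (x := y) 0
  rw [mul_zero, min_eq_right (by norm_num), ENNReal.ofReal_zero, Metric.closedBall_zero] at h1
  exact h1

theorem vol_finite {s : Set UnitAddCircle} (hs : s.Finite) : volume s = 0 := by
  rw [← Set.biUnion_of_singleton s, measure_biUnion_null_iff hs.countable]
  intro y _
  exact vol_singleton y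

theorem cs_fiber (t : ℝ) : volume {y : UnitAddCircle | cs y = t} = 0 := by
  apply vol_finite
  have h1 : {y : UnitAddCircle | cs y = t} ⊆ (fun y : UnitAddCircle => ((AddCircle.toCircle y : Circle) : ℂ)) ⁻¹'
      {(⟨t, Real.sqrt (1 - t ^ 2)⟩ : ℂ), ⟨t, -Real.sqrt (1 - t ^ 2)⟩} := by
    intro y hy
    rw [Set.mem_ofPred_eq] at hy
    unfold cs at hy
    rw [Set.mem_preimage]
    set z : ℂ := ((AddCircle.toCircle y : Circle) : ℂ) with hz
    have h2 : ‖z‖ = 1 := Circle.norm_coe _
    have h3 : z.re ^ 2 + z.im ^ 2 = 1 := by
      have := Complex.sq_norm z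
      rw [h2, Complex.normSq_apply] at this
      nlinarith
    rw [hy] at h3
    have h4 : z.im ^ 2 = Real.sqrt (1 - t ^ 2) ^ 2 := by
      rw [Real.sq_sqrt (by nlinarith [sq_nonneg z.im])]; linarith
    rcases sq_eq_sq_iff_eq_or_eq_neg.1 h4 with h5 | h5
    · left; exact Complex.ext hy h5
    · right; exact Complex.ext hy h5
  refine Set.Finite.subset (Set.Finite.preimage ?_ (Set.toFinite _)) h1
  intro a _ b _ hab
  apply AddCircle.injective_toCircle (one_ne_zero)
  exact Circle.ext hab

/-- the polynomial attached to a point of the torus -/
noncomputable def QT {m : ℕ} (y : Fin m → UnitAddCircle) : ℝ[X] := QQ (fun j => cs (y j))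

theorem continuous_QT_coeff {m : ℕ} (k : ℕ) : Continuous (fun y : Fin m → UnitAddCircle => (QT y).coeff k) := by
  unfold QT QQ
  have h1 : ∀ (s : Finset (Fin m)) (k : ℕ), Continuous
      (fun y : Fin m → UnitAddCircle => (∏ j ∈ s, quad (cs (y j))).coeff k) := by
    intro s
    induction s using Finset.induction_on with
    | empty => intro k; simp only [prod_empty]; exact continuous_const
    | insert a s ha ih =>
      intro k
      have h2 : (fun y : Fin m → UnitAddCircle => (∏ j ∈ insert a s, quad (cs (y j))).coeff k) =
          fun y => ((∏ j ∈ s, quad (cs (y j))) * quad (cs (y a))).coeff k := by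
        funext y
        rw [prod_insert ha, mul_comm]
      rw [h2]
      have hca : Continuous (fun y : Fin m → UnitAddCircle => cs (y a)) :=
        continuous_cs.comp (continuous_apply a)
      match k with
      | 0 =>
        simp only [quad_mul_coeff_zero]
        exact ih 0
      | 1 =>
        simp only [quad_mul_coeff_one]
        exact (ih 1).sub ((continuous_const.mul hca).mul (ih 0))
      | k + 2 =>
        simp only [quad_mul_coeff]
        exact ((ih (k + 2)).sub ((continuous_const.mul hca).mul (ih (k + 1)))).add (ih k)
  exact h1 univ k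

theorem continuous_mul_coeff {m : ℕ} (A : ℝ[X]) (k : ℕ) :
    Continuous (fun y : Fin m → UnitAddCircle => (QT y * A).coeff k) := by
  simp only [coeff_mul]
  exact continuous_finset_sum _ fun x _ => (continuous_QT_coeff x.1).mul continuous_const

/-- the fibres of the middle coefficients are null sets -/
theorem null_coeff : ∀ (m : ℕ) (k : ℕ), 0 < k → k < 2 * m → ∀ c : ℝ,
    volume {y : Fin m → UnitAddCircle | (QT y).coeff k = c} = 0 := by
  intro m
  induction m with
  | zero => intro k h1 h2; omega
  | succ m ih =>
    intro k hk0 hk c
    -- the splitting of the product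
    have hsplit : ∀ y : Fin (m + 1) → UnitAddCircle, QT y = QT (fun j : Fin m => y j.succ) * quad (cs (y 0)) := by
      intro y
      unfold QT QQ
      rw [Fin.prod_univ_succ, mul_comm]
    set S : Set (UnitAddCircle × (Fin m → UnitAddCircle)) :=
      {w | (QT w.2 * quad (cs w.1)).coeff k = c} with hS
    have hcont : Continuous (fun w : UnitAddCircle × (Fin m → UnitAddCircle) => (QT w.2 * quad (cs w.1)).coeff k) := by
      match k with
      | 0 =>
        simp only [quad_mul_coeff_zero]
        exact (continuous_QT_coeff 0).comp continuous_snd
      | 1 =>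
        simp only [quad_mul_coeff_one]
        exact ((continuous_QT_coeff 1).comp continuous_snd).sub
          ((continuous_const.mul (continuous_cs.comp continuous_fst)).mul ((continuous_QT_coeff 0).comp continuous_snd))
      | k + 2 =>
        simp only [quad_mul_coeff]
        exact (((continuous_QT_coeff (k + 2)).comp continuous_snd).sub
          ((continuous_const.mul (continuous_cs.comp continuous_fst)).mul
            ((continuous_QT_coeff (k + 1)).comp continuous_snd))).add ((continuous_QT_coeff k).comp continuous_snd)
    have hSm : MeasurableSet S := (isClosed_eq hcont continuous_const).measurableSet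
    have hpre : {y : Fin (m + 1) → UnitAddCircle | (QT y).coeff k = c} =
        (MeasurableEquiv.piFinSuccAbove (fun _ : Fin (m + 1) => UnitAddCircle) 0) ⁻¹' S := by
      ext y
      rw [Set.mem_ofPred_eq, Set.mem_preimage, hS, Set.mem_ofPred_eq, hsplit y]
      rfl
    rw [hpre, (volume_preserving_piFinSuccAbove (fun _ : Fin (m + 1) => UnitAddCircle) 0).measure_preimage
      hSm.nullMeasurableSet]
    change ((volume : Measure UnitAddCircle).prod (volume : Measure (Fin m → UnitAddCircle))) S = 0
    rw [Measure.prod_apply_symm hSm]
    have hae : ∀ᵐ y : Fin m → UnitAddCircle, (QT y).coeff (k - 1) ≠ 0 := by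
      rcases Nat.eq_zero_or_pos (k - 1) with h0 | h0
      · refine Filter.Eventually.of_forall fun y => ?_
        rw [h0]
        unfold QT
        rw [QQ_coeff_zero]; exact one_ne_zero
      rcases Nat.lt_or_ge (k - 1) (2 * m) with h1 | h1
      · have h2 := ih (k - 1) h0 h1 0
        rw [ae_iff]
        simpa using h2
      · have h2 : k - 1 = 2 * m := by omega
        refine Filter.Eventually.of_forall fun y => ?_
        rw [h2]
        unfold QT
        have h3 := QQ_monic (fun j => cs (y j))
        rw [Monic, leadingCoeff, QQ_natDegree] at h3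
        rw [h3]; exact one_ne_zero
    rw [lintegral_eq_zero_iff' ?_]
    · filter_upwards [hae] with y hy
      have hslice : (fun x : UnitAddCircle => (x, y)) ⁻¹' S ⊆
          {x : UnitAddCircle | cs x = ((QT y).coeff k + (if 2 ≤ k then (QT y).coeff (k - 2) else 0) - c) /
            (2 * (QT y).coeff (k - 1))} := by
        intro x hx
        rw [Set.mem_preimage, hS, Set.mem_ofPred_eq] at hx
        rw [Set.mem_ofPred_eq, eq_div_iff (by positivity)]
        match k with
        | 0 => omega
        | 1 =>
          simp only [quad_mul_coeff_one] at hx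
          simp at hy ⊢
          linarith
        | k + 2 =>
          simp only [quad_mul_coeff] at hx
          rw [if_pos (by omega), show k + 2 - 1 = k + 1 by omega, show k + 2 - 2 = k by omega]
          linarith
      exact measure_mono_null hslice (cs_fiber _)
    · exact (measurable_measure_prodMk_right hSm).aemeasurable

end Pool.Agent.K9h56.PD
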