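import Mathlib
import Pool.Agent.K9h56.PD.Dyn
import Pool.Agent.K9h56.PD.Torus

/-!
# Digits: polynomials whose products with `QT y` have their coefficients in `(0, 1]`
-/

set_option autoImplicit false

namespace Pool.Agent.K9h56.PD

open Polynomial Finset Filter Topology MeasureTheory Pool.Agent.H446R3.SK Pool.Agent.H196R3.Parry

/-- the real polynomial of `A` -/
noncomputable abbrev re (A : ℤ[X]) : ℝ[X] := A.map (Int.castRingHom ℝ)

theorem re_coeff (A : ℤ[X]) (k : ℕ) : (re A).coeff k = (A.coeff k : ℝ) := by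
  rw [re, coeff_map]; rfl

/-! ### The orbit of `1` -/

/-- `(1 - b X) Q` -/
noncomputable def hp (b : ℝ) (Q : ℝ[X]) : ℝ[X] := (1 - C b * X) * Q

theorem hp_mul_coeff_succ (b : ℝ) (Q A : ℝ[X]) (k : ℕ) :
    (hp b Q * A).coeff (k + 1) = (Q * A).coeff (k + 1) - b * (Q * A).coeff k := by
  have h : hp b Q * A = Q * A - C b * (Q * A * X) := by unfold hp; ring
  rw [h, coeff_sub, coeff_C_mul, coeff_mul_X]

theorem hp_mul_coeff_zero (b : ℝ) (Q A : ℝ[X]) : (hp b Q * A).coeff 0 = (Q * A).coeff 0 := by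
  have h : hp b Q * A = Q * A - C b * (Q * A * X) := by unfold hp; ring
  rw [h, coeff_sub, coeff_C_mul]
  simp

theorem hp_coeff_succ (b : ℝ) (Q : ℝ[X]) (k : ℕ) : (hp b Q).coeff (k + 1) = Q.coeff (k + 1) - b * Q.coeff k := by
  have := hp_mul_coeff_succ b Q 1 k
  simpa using this

/-- the relation with an integer polynomial -/
theorem hp_rec {B : ℝ} (hB : B ≠ 0) {F : ℤ[X]} {Q : ℝ[X]} (hF : re F = (X - C B) * ((X - C B⁻¹) * Q)) (E : ℤ[X])
    (k : ℕ) : (hp B⁻¹ Q * re E).coeff (k + 1) - B * (hp B⁻¹ Q * re E).coeff k = ((F * E).coeff (k + 1) : ℤ) := by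
  have h1 : re (F * E) = (1 - C B * X) * (hp B⁻¹ Q * re E) := by
    have hCB : (C B : ℝ[X]) * C B⁻¹ = 1 := by rw [← C_mul, mul_inv_cancel₀ hB, C_1]
    rw [re, Polynomial.map_mul]
    change re F * re E = _
    rw [hF]
    unfold hp
    linear_combination (- (X ^ 2 * Q * re E) + Q * re E) * hCB
  have h2 : (re (F * E)).coeff (k + 1) = ((F * E).coeff (k + 1) : ℝ) := re_coeff _ _
  rw [← h2, h1, sub_mul, one_mul, coeff_sub, mul_assoc, coeff_C_mul, coeff_X_mul]

theorem orb_digits {B : ℝ} (hB : B ≠ 0) {F : ℤ[X]} {Q : ℝ[X]} (hF : re F = (X - C B) * ((X - C B⁻¹) * Q))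
    {A : ℤ[X]} (h0 : (Q * re A).coeff 0 = 1) {K : ℕ}
    (h : ∀ k, 1 ≤ k → k ≤ K → 0 ≤ (hp B⁻¹ Q * re A).coeff k ∧ (hp B⁻¹ Q * re A).coeff k < 1) :
    ∀ k, k ≤ K → orb B k = (hp B⁻¹ Q * re A).coeff k := by
  intro k
  induction k with
  | zero => intro _; rw [orb_zero, hp_mul_coeff_zero, h0]
  | succ k ih =>
    intro hk
    rw [orb_succ, ih (by omega)]
    have h1 := hp_rec hB hF A k
    have h2 : B * (hp B⁻¹ Q * re A).coeff k =
        (hp B⁻¹ Q * re A).coeff (k + 1) - ((F * A).coeff (k + 1) : ℤ) := by linarith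
    rw [h2, Int.fract_sub_intCast]
    obtain ⟨h3, h4⟩ := h (k + 1) (by omega) hk
    exact Int.fract_eq_self.2 ⟨h3, h4⟩

/-! ### Linear independence -/

theorem triang (G : ℕ → ℤ[X]) (hG : ∀ l, (G l).Monic ∧ (G l).natDegree = l) (c : ℕ → ℤ) :
    ∀ n, ∑ l ∈ range n, C (c l) * G l = 0 → ∀ l < n, c l = 0 := by
  intro n
  induction n with
  | zero => intro _ l hl; omega
  | succ n ih =>
    intro h
    have h1 := congrArg (fun p : ℤ[X] => p.coeff n) h
    simp only [finsetSum_coeff, coeff_zero] at h1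
    rw [sum_range_succ, Finset.sum_eq_zero, zero_add, coeff_C_mul] at h1
    · have h2 : (G n).coeff n = 1 := by
        have := (hG n).1
        rw [Monic, leadingCoeff, (hG n).2] at this
        exact this
      rw [h2, mul_one] at h1
      rw [sum_range_succ, h1, C_0, zero_mul, add_zero] at h
      intro l hl
      rcases Nat.lt_or_ge l n with h3 | h3
      · exact ih h l h3
      · have : l = n := by omega
        rw [this]; exact h1
    · intro l hl
      rw [mem_range] at hl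
      rw [coeff_C_mul, coeff_eq_zero_of_natDegree_lt (by rw [(hG l).2]; exact hl), mul_zero]

/-- the polynomials whose values are the coefficients of `hp` -/
noncomputable def GG (F : ℤ[X]) : ℕ → ℤ[X]
  | 0 => 1
  | l + 1 => X * GG F l + C (F.coeff (l + 1))

theorem GG_monic (F : ℤ[X]) (l : ℕ) : (GG F l).Monic ∧ (GG F l).natDegree = l := by
  induction l with
  | zero => exact ⟨monic_one, natDegree_one⟩
  | succ l ih =>
    obtain ⟨h1, h2⟩ := ih
    have h3 : (X * GG F l).Monic := monic_X.mul h1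
    have h4 : (X * GG F l).natDegree = l + 1 := by
      rw [monic_X.natDegree_mul h1, natDegree_X, h2, add_comm]
    have h5 : (C (F.coeff (l + 1)) : ℤ[X]).degree < (X * GG F l).degree := by
      apply lt_of_le_of_lt degree_C_le
      rw [degree_eq_natDegree h3.ne_zero, h4]
      exact_mod_cast Nat.succ_pos l
    rw [GG]
    refine ⟨h3.add_of_left h5, ?_⟩
    rw [natDegree_add_C, h4]

theorem GG_eval {B : ℝ} (hB : B ≠ 0) {F : ℤ[X]} {Q : ℝ[X]} (hF : re F = (X - C B) * ((X - C B⁻¹) * Q))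
    (hQ0 : Q.coeff 0 = 1) (l : ℕ) : aeval B (GG F l) = (hp B⁻¹ Q).coeff l := by
  induction l with
  | zero =>
    have := hp_mul_coeff_zero B⁻¹ Q 1
    rw [mul_one, mul_one, hQ0] at this
    rw [this]; simp [GG]
  | succ l ih =>
    rw [GG, map_add, map_mul, aeval_X, ih, aeval_C]
    have h1 := hp_rec hB hF 1 l
    rw [mul_one, re, Polynomial.map_one, mul_one] at h1
    rw [eq_intCast]
    linarith

/-- the window -/
theorem window {B : ℝ} (hB : B ≠ 0) (hint : IsIntegral ℤ B) {m : ℕ} {Q : ℝ[X]}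
    (hF : re (minpoly ℤ B) = (X - C B) * ((X - C B⁻¹) * Q)) (hdeg : (minpoly ℤ B).natDegree = 2 * m + 2)
    (hQ0 : Q.coeff 0 = 1) (hQd : Q.natDegree = 2 * m) (E : ℤ[X]) (k : ℕ)
    (h : (hp B⁻¹ Q * re E).coeff k = 0) : ∀ l, l ≤ 2 * m + 1 → l ≤ k → E.coeff (k - l) = 0 := by
  set c : ℕ → ℤ := fun l => if l ≤ k then E.coeff (k - l) else 0 with hc
  have hh0 : ∀ l, 2 * m + 1 < l → (hp B⁻¹ Q).coeff l = 0 := by
    intro l hl
    obtain ⟨l', rfl⟩ : ∃ l', l = l' + 1 := ⟨l - 1, by omega⟩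
    rw [hp_coeff_succ, coeff_eq_zero_of_natDegree_lt (by omega), coeff_eq_zero_of_natDegree_lt (by omega)]
    ring
  have h1 : ∑ l ∈ range (2 * m + 2), (hp B⁻¹ Q).coeff l * (c l : ℝ) = 0 := by
    rw [coeff_mul, Finset.Nat.sum_antidiagonal_eq_sum_range_succ
      (fun i j => (hp B⁻¹ Q).coeff i * (re E).coeff j)] at h
    have h2 : ∑ l ∈ range (k + 1), (hp B⁻¹ Q).coeff l * (re E).coeff (k - l) =
        ∑ l ∈ range (k + 1 + (2 * m + 2)), (hp B⁻¹ Q).coeff l * (c l : ℝ) := by
      have h3 : ∑ l ∈ range (k + 1), (hp B⁻¹ Q).coeff l * (re E).coeff (k - l) =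
          ∑ l ∈ range (k + 1), (hp B⁻¹ Q).coeff l * (c l : ℝ) := by
        apply Finset.sum_congr rfl
        intro l hl
        rw [mem_range] at hl
        rw [hc, re_coeff]
        simp only
        rw [if_pos (by omega)]
      rw [h3]
      apply Finset.sum_subset (range_mono (by omega))
      intro l _ hl
      rw [mem_range, not_lt] at hl
      rw [hc]
      simp only
      rw [if_neg (by omega)]; simp
    have h4 : ∑ l ∈ range (2 * m + 2), (hp B⁻¹ Q).coeff l * (c l : ℝ) =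
        ∑ l ∈ range (k + 1 + (2 * m + 2)), (hp B⁻¹ Q).coeff l * (c l : ℝ) := by
      apply Finset.sum_subset (range_mono (by omega))
      intro l _ hl
      rw [mem_range, not_lt] at hl
      rw [hh0 l (by omega), zero_mul]
    rw [h4, ← h2]; exact h
  -- the integer polynomial
  set P : ℤ[X] := ∑ l ∈ range (2 * m + 2), C (c l) * GG (minpoly ℤ B) l with hP
  have h2 : aeval B P = 0 := by
    rw [hP, map_sum, ← h1]
    apply Finset.sum_congr rfl
    intro l _
    rw [map_mul, GG_eval hB hF hQ0, aeval_C, eq_intCast, mul_comm]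
  have h3 : P = 0 := by
    by_contra hne
    have h4 := minpoly.isIntegrallyClosed_dvd hint h2
    have h5 := natDegree_le_of_dvd h4 hne
    have h6 : P.natDegree ≤ 2 * m + 1 := by
      rw [hP]
      apply natDegree_sum_le_of_forall_le
      intro l hl
      rw [mem_range] at hl
      refine (natDegree_C_mul_le _ _).trans ?_
      rw [(GG_monic _ l).2]; omega
    omega
  have h4 := triang (GG (minpoly ℤ B)) (GG_monic _) c (2 * m + 2) h3
  intro l hl hlk
  have h5 := h4 l (by omega)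
  rw [hc] at h5
  simp only at h5
  rwa [if_pos hlk] at h5

end Pool.Agent.K9h56.PD
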