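import Mathlib
import Pool.Agent.H446R3.SK.Tor

/-!
# Equidistribution on the torus and lower densities
-/

set_option autoImplicit false

namespace Pool.Agent.K9h56.PD

open Finset Filter Topology MeasureTheory Pool.Agent.H446R3.SK

variable {m : ℕ}

/-- Weyl's criterion for the sequence `x` in the torus -/
def Equi (x : ℕ → Fin m → UnitAddCircle) : Prop :=
  ∀ k : Fin m → ℤ, k ≠ 0 → Tendsto (fun N : ℕ => (1 / (N : ℂ)) * ∑ n ∈ range N, mF k (x n)) atTop (𝓝 0)

theorem exists_neg {k : Fin m → ℤ} (hk : k ≠ 0) : ∃ γ, mF k γ = -1 := by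
  obtain ⟨i, hi⟩ : ∃ i, k i ≠ 0 := by
    by_contra hc; push Not at hc; exact hk (funext hc)
  refine ⟨Pi.single i ((1 / (2 * (k i : ℝ)) : ℝ) : UnitAddCircle), ?_⟩
  simp only [mF, UnitAddTorus.mFourier, ContinuousMap.coe_mk]
  rw [Finset.prod_eq_single i]
  · rw [Pi.single_eq_same, fourier_coe_apply]
    have hki : (k i : ℂ) ≠ 0 := by exact_mod_cast hi
    have h4 : 2 * (Real.pi : ℂ) * Complex.I * (k i : ℂ) * ((1 / (2 * (k i : ℝ)) : ℝ) : ℂ) / ((1 : ℝ) : ℂ) =
        Real.pi * Complex.I := by
      push_cast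
      field_simp
    rw [h4, Complex.exp_pi_mul_I]
  · intro j _ hj
    rw [Pi.single_eq_of_ne hj]
    exact fourier_eval_zero _
  · intro h; exact absurd (Finset.mem_univ i) h

theorem int_mF {k : Fin m → ℤ} (hk : k ≠ 0) : ∫ z, mF k z = 0 := by
  obtain ⟨γ, hγ⟩ := exists_neg hk
  have h1 : ∫ z, mF k z = ∫ z, mF k (z + γ) := (integral_add_right_eq_self (fun z => mF k z) γ).symm
  simp only [mF_add, hγ] at h1
  rw [integral_mul_const] at h1
  have h2 : (∫ z, mF k z) * 2 = 0 := by linear_combination h1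
  rcases mul_eq_zero.1 h2 with h3 | h3
  · exact h3
  · norm_num at h3

theorem norm_avg_le (f : ℕ → ℂ) {c : ℝ} (hf : ∀ n, ‖f n‖ ≤ c) (hc : 0 ≤ c) (N : ℕ) :
    ‖(1 / (N : ℂ)) * ∑ n ∈ range N, f n‖ ≤ c := by
  rw [norm_mul, norm_div, norm_one, Complex.norm_natCast]
  have h1 : ‖∑ n ∈ range N, f n‖ ≤ N * c := by
    refine (norm_sum_le _ _).trans ?_
    calc ∑ n ∈ range N, ‖f n‖ ≤ ∑ n ∈ range N, c := Finset.sum_le_sum fun n _ => hf n
      _ = N * c := by rw [Finset.sum_const, card_range, nsmul_eq_mul]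
  rcases Nat.eq_zero_or_pos N with h0 | h0
  · subst h0; simp; exact hc
  · have h2 : (0 : ℝ) < N := by exact_mod_cast h0
    rw [one_div, inv_mul_le_iff₀ h2]
    exact h1

theorem equi_cont {x : ℕ → Fin m → UnitAddCircle} (hx : Equi x) (f : C(Fin m → UnitAddCircle, ℂ)) :
    Tendsto (fun N : ℕ => (1 / (N : ℂ)) * ∑ n ∈ range N, f (x n)) atTop (𝓝 (∫ z, f z)) := by
  refine cind (P := fun f => Tendsto (fun N : ℕ => (1 / (N : ℂ)) * ∑ n ∈ range N, f (x n)) atTop
    (𝓝 (∫ z, f z))) ?_ ?_ ?_ ?_ ?_ f
  · simp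
  · intro k
    by_cases hk : k = 0
    · subst hk
      have h1 : ∀ z, mF (0 : Fin m → ℤ) z = 1 := fun z => by
        simp [mF, UnitAddTorus.mFourier_zero]
      simp only [h1]
      have h2 : ∫ _z : (Fin m → UnitAddCircle), (1 : ℂ) = 1 := by
        rw [integral_const]; simp
      rw [h2]
      apply Tendsto.congr' _ tendsto_const_nhds
      filter_upwards [eventually_gt_atTop 0] with N hN
      have h3 : (N : ℂ) ≠ 0 := by exact_mod_cast hN.ne'
      simp [h3]
    · rw [int_mF hk]
      exact hx k hk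
  · intro f g hf hg
    have h1 : ∫ z, (f + g) z = (∫ z, f z) + ∫ z, g z := by
      simp only [ContinuousMap.add_apply]
      exact integral_add (f.continuous.integrable_of_hasCompactSupport (HasCompactSupport.of_compactSpace _))
        (g.continuous.integrable_of_hasCompactSupport (HasCompactSupport.of_compactSpace _))
    rw [h1]
    refine (hf.add hg).congr fun N => ?_
    simp only [ContinuousMap.add_apply, Finset.sum_add_distrib]
    ring
  · intro c f hf
    have h1 : ∫ z, (c • f) z = c * ∫ z, f z := by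
      simp only [ContinuousMap.smul_apply, smul_eq_mul]
      exact integral_const_mul _ _
    rw [h1]
    refine (hf.const_mul c).congr fun N => ?_
    simp only [ContinuousMap.smul_apply, smul_eq_mul, ← Finset.mul_sum]
    ring
  · intro f hf
    rw [Metric.tendsto_atTop]
    intro ε hε
    obtain ⟨g, hg, hfg⟩ := hf (ε / 3) (by positivity)
    rw [Metric.tendsto_atTop] at hg
    obtain ⟨N0, hN0⟩ := hg (ε / 3) (by positivity)
    refine ⟨N0, fun N hN => ?_⟩
    have h1 := hN0 N hN
    rw [dist_eq_norm] at h1 ⊢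
    have h2 : ‖(1 / (N : ℂ)) * ∑ n ∈ range N, (f (x n) - g (x n))‖ ≤ ‖f - g‖ := by
      apply norm_avg_le _ _ (norm_nonneg _)
      intro n
      exact (f - g).norm_coe_le_norm (x n)
    have h3 : ‖(∫ z, f z) - ∫ z, g z‖ ≤ ‖f - g‖ := by
      rw [← integral_sub (f.continuous.integrable_of_hasCompactSupport (HasCompactSupport.of_compactSpace _))
        (g.continuous.integrable_of_hasCompactSupport (HasCompactSupport.of_compactSpace _))]
      have := norm_integral_le_of_norm_le_const (μ := (volume : Measure (Fin m → UnitAddCircle)))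
        (f := fun z => f z - g z) (C := ‖f - g‖) (Eventually.of_forall fun z => (f - g).norm_coe_le_norm z)
      simpa using this
    have h4 : (1 / (N : ℂ)) * ∑ n ∈ range N, f (x n) - ∫ z, f z =
        (1 / (N : ℂ)) * ∑ n ∈ range N, (f (x n) - g (x n)) +
        ((1 / (N : ℂ)) * ∑ n ∈ range N, g (x n) - ∫ z, g z) - ((∫ z, f z) - ∫ z, g z) := by
      rw [Finset.sum_sub_distrib]; ring
    rw [h4]
    calc _ ≤ ‖(1 / (N : ℂ)) * ∑ n ∈ range N, (f (x n) - g (x n)) +
        ((1 / (N : ℂ)) * ∑ n ∈ range N, g (x n) - ∫ z, g z)‖ + ‖(∫ z, f z) - ∫ z, g z‖ := norm_sub_le _ _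
      _ ≤ ‖(1 / (N : ℂ)) * ∑ n ∈ range N, (f (x n) - g (x n))‖ +
        ‖(1 / (N : ℂ)) * ∑ n ∈ range N, g (x n) - ∫ z, g z‖ + ‖(∫ z, f z) - ∫ z, g z‖ := by
          gcongr; exact norm_add_le _ _
      _ < ε := by linarith

open Classical in
/-- the number of `n < N` with `P n` -/
noncomputable def cnt (P : ℕ → Prop) (N : ℕ) : ℕ := ((range N).filter P).card

/-- Lower densities: if `P n` holds for all large `n` with `x n ∈ U i`, for each of the open sets `U i`, then the lower
density of `P` is at least the measure of the union of the `U i`. -/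
theorem lower_density {x : ℕ → Fin m → UnitAddCircle} (hx : Equi x) {ι : Type*} (U : ι → Set (Fin m → UnitAddCircle))
    (hU : ∀ i, IsOpen (U i)) (P : ℕ → Prop) (hP : ∀ i, ∀ᶠ n in atTop, x n ∈ U i → P n) {c : ℝ}
    (hc : c < (volume (⋃ i, U i)).toReal) : ∀ᶠ N : ℕ in atTop, c * N ≤ (cnt P N : ℝ) := by
  classical
  by_cases hc0 : c < 0
  · filter_upwards with N
    have h1 : (0 : ℝ) ≤ (cnt P N : ℝ) := by positivity
    have h2 : (0 : ℝ) ≤ N := by positivity
    nlinarith
  rw [not_lt] at hc0
  have hVo : IsOpen (⋃ i, U i) := isOpen_iUnion hU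
  have hc' : ENNReal.ofReal c < volume (⋃ i, U i) := by
    rw [ENNReal.ofReal_lt_iff_lt_toReal hc0 (measure_ne_top _ _)]
    exact hc
  obtain ⟨K, hKV, hK, hcK⟩ := hVo.exists_lt_isCompact hc'
  have hcK' : c < (volume K).toReal := by
    rwa [ENNReal.ofReal_lt_iff_lt_toReal hc0 (measure_ne_top _ _)] at hcK
  obtain ⟨t, ht⟩ := hK.elim_finite_subcover U hU hKV
  set V : Set (Fin m → UnitAddCircle) := ⋃ i ∈ t, U i with hV
  have hVopen : IsOpen V := isOpen_biUnion fun i _ => hU i
  obtain ⟨f, hf0, hf1, hf01⟩ := exists_continuous_zero_one_of_isClosed (s := Vᶜ) (t := K)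
    hVopen.isClosed_compl hK.isClosed (by
      rw [Set.disjoint_left]; intro y hy hyK; exact hy (ht hyK))
  -- the test function
  set F : C(Fin m → UnitAddCircle, ℂ) := ⟨fun y => ((f y : ℝ) : ℂ), by fun_prop⟩ with hF
  have hlim := equi_cont hx F
  have hint : ∫ z, F z = ((∫ z, f z : ℝ) : ℂ) := by
    simp only [hF, ContinuousMap.coe_mk]
    exact integral_ofReal
  have hfint : Integrable (fun z => f z) (volume : Measure (Fin m → UnitAddCircle)) :=
    f.continuous.integrable_of_hasCompactSupport (HasCompactSupport.of_compactSpace _)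
  have hge : (volume K).toReal ≤ ∫ z, f z := by
    have h1 : ∫ z, K.indicator (fun _ => (1 : ℝ)) z = (volume K).toReal := by
      rw [integral_indicator hK.measurableSet]
      simp [Measure.real]
    rw [← h1]
    apply integral_mono _ hfint
    · intro y
      by_cases hy : y ∈ K
      · simp only [Set.indicator_of_mem hy]
        exact (hf1 hy).ge
      · simp only [Set.indicator_of_notMem hy]
        exact (hf01 y).1
    · exact (integrable_const (1 : ℝ)).indicator hK.measurableSet
  rw [hint] at hlim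
  have hre := (Complex.continuous_re.tendsto _).comp hlim
  rw [Complex.ofReal_re] at hre
  set c' : ℝ := (c + (volume K).toReal) / 2 with hc'def
  have hcc' : c < c' := by rw [hc'def]; linarith
  have hc'K : c' < ∫ z, f z := by rw [hc'def]; linarith
  have ev1 : ∀ᶠ N : ℕ in atTop, c' < (Complex.re ∘ fun N : ℕ => (1 / (N : ℂ)) * ∑ n ∈ range N, F (x n)) N :=
    hre.eventually_const_lt hc'K
  have hPt : ∀ᶠ n in atTop, x n ∈ V → P n := by
    have h1 : ∀ᶠ n in atTop, ∀ i ∈ t, x n ∈ U i → P n := by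
      rw [Filter.eventually_all_finset]
      intro i _; exact hP i
    filter_upwards [h1] with n hn hxn
    rw [hV, Set.mem_iUnion₂] at hxn
    obtain ⟨i, hi, hxi⟩ := hxn
    exact hn i hi hxi
  obtain ⟨M, hM⟩ := eventually_atTop.1 hPt
  have ev2 : ∀ᶠ N : ℕ in atTop, (M : ℝ) / (c' - c) ≤ N := tendsto_natCast_atTop_atTop.eventually_ge_atTop _
  filter_upwards [ev1, ev2, eventually_gt_atTop 0] with N h1 h2 h3
  have hN : (0 : ℝ) < N := by exact_mod_cast h3
  have h4 : (Complex.re ∘ fun N : ℕ => (1 / (N : ℂ)) * ∑ n ∈ range N, F (x n)) N =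
      (1 / (N : ℝ)) * ∑ n ∈ range N, f (x n) := by
    simp only [Function.comp, hF, ContinuousMap.coe_mk]
    rw [show (1 / (N : ℂ)) * ∑ n ∈ range N, ((f (x n) : ℝ) : ℂ) =
      (((1 / (N : ℝ)) * ∑ n ∈ range N, f (x n) : ℝ) : ℂ) by push_cast; rfl]
    exact Complex.ofReal_re _
  rw [h4] at h1
  have h5 : c' * N < ∑ n ∈ range N, f (x n) := by
    rw [one_div, ← div_eq_inv_mul, lt_div_iff₀ hN] at h1
    exact h1
  have h6 : ∑ n ∈ range N, f (x n) ≤ (cnt P N : ℝ) + M := by
    calc ∑ n ∈ range N, f (x n) ≤ ∑ n ∈ range N, ((if P n then (1 : ℝ) else 0) + (if n < M then (1 : ℝ) else 0)) := by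
          apply Finset.sum_le_sum
          intro n _
          have hb := hf01 (x n)
          by_cases hPn : P n
          · rw [if_pos hPn]
            split_ifs <;> linarith [hb.2]
          · by_cases hnM : n < M
            · rw [if_neg hPn, if_pos hnM]
              linarith [hb.2]
            · rw [if_neg hPn, if_neg hnM]
              have h7 : x n ∉ V := fun h => hPn (hM n (not_lt.1 hnM) h)
              have h8 : f (x n) = 0 := hf0 h7
              rw [h8]; norm_num
      _ = (cnt P N : ℝ) + (((range N).filter (fun n => n < M)).card : ℝ) := by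
          rw [Finset.sum_add_distrib]
          congr 1
          · rw [Finset.sum_boole]; rfl
          · rw [Finset.sum_boole]
      _ ≤ (cnt P N : ℝ) + M := by
          gcongr
          have h7 : (range N).filter (fun n => n < M) ⊆ range M := by
            intro n hn; rw [mem_filter] at hn; exact mem_range.2 hn.2
          have h8 := Finset.card_le_card h7
          rwa [card_range] at h8
  have h7 : (M : ℝ) ≤ (c' - c) * N := by
    have h8 : 0 < c' - c := by linarith
    rw [div_le_iff₀ h8] at h2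
    linarith
  linarith

end Pool.Agent.K9h56.PD
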