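import Mathlib
import Pool.Agent.K9h56.PD.Digits

/-!
# Digits which are locally constant on the torus
-/

set_option autoImplicit false

namespace Pool.Agent.K9h56.PD

open Polynomial Finset Filter Topology MeasureTheory Pool.Agent.H446R3.SK Pool.Agent.H196R3.Parry

theorem QT_coeff_zero {m : ℕ} (y : Fin m → UnitAddCircle) : (QT y).coeff 0 = 1 := by
  unfold QT; exact QQ_coeff_zero _

theorem QT_natDegree {m : ℕ} (y : Fin m → UnitAddCircle) : (QT y).natDegree = 2 * m := by
  unfold QT; exact QQ_natDegree _

theorem QT_monic {m : ℕ} (y : Fin m → UnitAddCircle) : (QT y).Monic := by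
  unfold QT; exact QQ_monic _

theorem QT_coeff_top {m : ℕ} (y : Fin m → UnitAddCircle) : (QT y).coeff (2 * m) = 1 := by
  have h := QT_monic y
  rw [Monic, leadingCoeff, QT_natDegree] at h
  exact h

/-- a coefficient of `QT y * G` is constant or has null fibres -/
theorem dichotomy : ∀ (m : ℕ) (G : ℝ[X]) (k : ℕ) (c : ℝ),
    volume {y : Fin m → UnitAddCircle | (QT y * G).coeff k = c} = 0 ∨
    ∀ y : Fin m → UnitAddCircle, (QT y * G).coeff k = c := by
  intro m
  induction m with
  | zero =>
    intro G k c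
    have h1 : ∀ y : Fin 0 → UnitAddCircle, QT y = 1 := by
      intro y; unfold QT QQ; simp
    by_cases h : G.coeff k = c
    · right; intro y; rw [h1, one_mul]; exact h
    · left
      have : {y : Fin 0 → UnitAddCircle | (QT y * G).coeff k = c} = ∅ := by
        ext y
        rw [Set.mem_ofPred_eq, h1, one_mul]
        simp [h]
      rw [this, measure_empty]
  | succ m ih =>
    intro G k c
    have hsplit : ∀ y : Fin (m + 1) → UnitAddCircle, QT y = QT (fun j : Fin m => y j.succ) * quad (cs (y 0)) := by
      intro y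
      unfold QT QQ
      rw [Fin.prod_univ_succ, mul_comm]
    have hform : ∀ (z : Fin m → UnitAddCircle) (x : ℝ), (QT z * quad x * G).coeff k =
        (QT z * ((X ^ 2 + 1) * G)).coeff k - 2 * x * (QT z * (X * G)).coeff k := by
      intro z x
      have h : QT z * quad x * G = QT z * ((X ^ 2 + 1) * G) - C (2 * x) * (QT z * (X * G)) := by
        unfold quad; ring
      rw [h, coeff_sub, coeff_C_mul]
    rcases ih (X * G) k 0 with h1 | h1
    · left
      set S : Set (UnitAddCircle × (Fin m → UnitAddCircle)) :=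
        {w | (QT w.2 * quad (cs w.1) * G).coeff k = c} with hS
      have hcont : Continuous (fun w : UnitAddCircle × (Fin m → UnitAddCircle) =>
          (QT w.2 * quad (cs w.1) * G).coeff k) := by
        simp only [hform]
        exact ((continuous_mul_coeff _ k).comp continuous_snd).sub
          ((continuous_const.mul (continuous_cs.comp continuous_fst)).mul
            ((continuous_mul_coeff _ k).comp continuous_snd))
      have hSm : MeasurableSet S := (isClosed_eq hcont continuous_const).measurableSet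
      have hpre : {y : Fin (m + 1) → UnitAddCircle | (QT y * G).coeff k = c} =
          (MeasurableEquiv.piFinSuccAbove (fun _ : Fin (m + 1) => UnitAddCircle) 0) ⁻¹' S := by
        ext y
        rw [Set.mem_ofPred_eq, Set.mem_preimage, hS, Set.mem_ofPred_eq, hsplit y]
        rfl
      rw [hpre, (volume_preserving_piFinSuccAbove (fun _ : Fin (m + 1) => UnitAddCircle) 0).measure_preimage
        hSm.nullMeasurableSet]
      change ((volume : Measure UnitAddCircle).prod (volume : Measure (Fin m → UnitAddCircle))) S = 0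
      rw [Measure.prod_apply_symm hSm, lintegral_eq_zero_iff' ?_]
      · have hae : ∀ᵐ y : Fin m → UnitAddCircle, (QT y * (X * G)).coeff k ≠ 0 := by
          rw [ae_iff]; simpa using h1
        filter_upwards [hae] with y hy
        have hslice : (fun x : UnitAddCircle => (x, y)) ⁻¹' S ⊆
            {x : UnitAddCircle | cs x = ((QT y * ((X ^ 2 + 1) * G)).coeff k - c) /
              (2 * (QT y * (X * G)).coeff k)} := by
          intro x hx
          rw [Set.mem_preimage, hS, Set.mem_ofPred_eq, hform] at hx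
          rw [Set.mem_ofPred_eq, eq_div_iff (by positivity)]
          linarith
        exact measure_mono_null hslice (cs_fiber _)
      · exact (measurable_measure_prodMk_right hSm).aemeasurable
    · -- the coefficient of `cs` vanishes identically
      have hval : ∀ y : Fin (m + 1) → UnitAddCircle, (QT y * G).coeff k =
          (QT (fun j : Fin m => y j.succ) * ((X ^ 2 + 1) * G)).coeff k := by
        intro y
        rw [hsplit y, hform, h1, mul_zero, sub_zero]
      rcases ih ((X ^ 2 + 1) * G) k c with h2 | h2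
      · left
        set S : Set (Fin m → UnitAddCircle) := {z | (QT z * ((X ^ 2 + 1) * G)).coeff k = c} with hS
        have hSm : MeasurableSet S := (isClosed_eq (continuous_mul_coeff _ k) continuous_const).measurableSet
        have hpre : {y : Fin (m + 1) → UnitAddCircle | (QT y * G).coeff k = c} =
            (MeasurableEquiv.piFinSuccAbove (fun _ : Fin (m + 1) => UnitAddCircle) 0) ⁻¹'
              (Prod.snd ⁻¹' S) := by
          ext y
          rw [Set.mem_ofPred_eq, Set.mem_preimage, Set.mem_preimage, hS, Set.mem_ofPred_eq, hval y]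
          rfl
        rw [hpre, (volume_preserving_piFinSuccAbove (fun _ : Fin (m + 1) => UnitAddCircle) 0).measure_preimage
          (measurable_snd hSm).nullMeasurableSet]
        change ((volume : Measure UnitAddCircle).prod (volume : Measure (Fin m → UnitAddCircle)))
          (Prod.snd ⁻¹' S) = 0
        rw [← Set.univ_prod, Measure.prod_prod, h2, mul_zero]
      · right
        intro y
        rw [hval, h2]

theorem countable_poly : Countable ℤ[X] := by
  rw [← Cardinal.mk_le_aleph0_iff]
  refine (Polynomial.cardinalMk_le_max).trans ?_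
  simp

/-- the exceptional set: a coefficient of the product with an integer polynomial is `1` without being constant -/
def ZZ (m : ℕ) : Set (Fin m → UnitAddCircle) :=
  {y | ∃ (A : ℤ[X]) (k : ℕ), (QT y * re A).coeff k = 1 ∧ ¬ ∀ z : Fin m → UnitAddCircle, (QT z * re A).coeff k = 1}

theorem vol_ZZ (m : ℕ) : volume (ZZ m) = 0 := by
  have hsub : ZZ m ⊆ ⋃ a : ℤ[X] × ℕ, {y : Fin m → UnitAddCircle | (QT y * re a.1).coeff a.2 = 1 ∧
      ¬ ∀ z : Fin m → UnitAddCircle, (QT z * re a.1).coeff a.2 = 1} := by
    rintro y ⟨A, k, h⟩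
    exact Set.mem_iUnion.2 ⟨(A, k), h⟩
  refine measure_mono_null hsub ?_
  have hcz : Countable ℤ[X] := countable_poly
  rw [measure_iUnion_null_iff]
  rintro ⟨A, k⟩
  rcases dichotomy m (re A) k 1 with h | h
  · refine measure_mono_null ?_ h
    intro y hy; exact hy.1
  · have : {y : Fin m → UnitAddCircle | (QT y * re (A, k).1).coeff (A, k).2 = 1 ∧
        ¬ ∀ z : Fin m → UnitAddCircle, (QT z * re (A, k).1).coeff (A, k).2 = 1} = ∅ := by
      ext y
      simp only [Set.mem_ofPred_eq, Set.mem_empty_iff_false, iff_false, not_and, not_not]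
      intro _; exact h
    rw [this, measure_empty]

/-- the digits `A` are admissible at `y` up to `K` -/
def Adm {m : ℕ} (A : ℤ[X]) (K : ℕ) (y : Fin m → UnitAddCircle) : Prop :=
  A.coeff 0 = 1 ∧ ∀ k, 1 ≤ k → k ≤ K → 0 < (QT y * re A).coeff k ∧ (QT y * re A).coeff k ≤ 1

theorem coeff_zero_of {m : ℕ} {A : ℤ[X]} (hA : A.coeff 0 = 1) (y : Fin m → UnitAddCircle) :
    (QT y * re A).coeff 0 = 1 := by
  rw [mul_coeff_zero, QT_coeff_zero, re_coeff, hA]; simp

theorem exists_adm {m : ℕ} (y : Fin m → UnitAddCircle) (K : ℕ) : ∃ A : ℤ[X], Adm A K y := by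
  induction K with
  | zero => exact ⟨1, by simp, fun k h1 h2 => by omega⟩
  | succ K ih =>
    obtain ⟨A, hA0, hA⟩ := ih
    set x := (QT y * re A).coeff (K + 1) with hx
    set z : ℤ := 1 - ⌈x⌉ with hz
    have hcoef : ∀ k, k ≤ K + 1 → (QT y * re (A + C z * X ^ (K + 1))).coeff k =
        (QT y * re A).coeff k + if k = K + 1 then (z : ℝ) else 0 := by
      intro k hk
      have h1 : re (A + C z * X ^ (K + 1)) = re A + C (z : ℝ) * X ^ (K + 1) := by
        simp [re]
      have h2 : QT y * (C (z : ℝ) * X ^ (K + 1)) = C (z : ℝ) * QT y * X ^ (K + 1) := by ring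
      rw [h1, mul_add, coeff_add, h2, coeff_mul_X_pow']
      congr 1
      by_cases h3 : k = K + 1
      · rw [if_pos h3, if_pos (by omega), h3, Nat.sub_self, coeff_C_mul, QT_coeff_zero, mul_one]
      · rw [if_neg h3, if_neg (by omega)]
    refine ⟨A + C z * X ^ (K + 1), ?_, ?_⟩
    · rw [coeff_add, hA0]; simp
    · intro k hk1 hk2
      rw [hcoef k hk2]
      rcases Nat.lt_or_ge k (K + 1) with h3 | h3
      · rw [if_neg (by omega), add_zero]
        exact hA k hk1 (by omega)
      · have h4 : k = K + 1 := by omega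
        rw [if_pos h4, h4, ← hx, hz]
        push_cast
        have h5 := Int.ceil_lt_add_one x
        have h6 := Int.le_ceil x
        constructor <;> linarith

/-- local constancy of the digits -/
theorem local_digits {m : ℕ} {y0 : Fin m → UnitAddCircle} (hy0 : y0 ∉ ZZ m) {A : ℤ[X]} {K : ℕ} (hA : Adm A K y0) :
    ∃ U : Set (Fin m → UnitAddCircle), IsOpen U ∧ y0 ∈ U ∧ ∃ ε : ℝ, 0 < ε ∧ ∀ y ∈ U, ∀ b : ℝ, 0 < b → b ≤ ε →
      ∀ k, 1 ≤ k → k ≤ K → 0 ≤ (hp b (QT y) * re A).coeff k ∧ (hp b (QT y) * re A).coeff k < 1 := by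
  obtain ⟨hA0, hA1⟩ := hA
  have hpos : ∀ k ∈ range (K + 1), 0 < (QT y0 * re A).coeff k ∧ (QT y0 * re A).coeff k ≤ 1 := by
    intro k hk
    rw [mem_range] at hk
    rcases Nat.eq_zero_or_pos k with h0 | h0
    · rw [h0, coeff_zero_of hA0]; exact ⟨one_pos, le_rfl⟩
    · exact hA1 k h0 (by omega)
  obtain ⟨η, hη, hη0⟩ : ∃ η : ℝ, (∀ k ∈ range (K + 1), η < (QT y0 * re A).coeff k) ∧ 0 < η := by
    have h1 : ∀ k ∈ range (K + 1), ∀ᶠ η : ℝ in 𝓝[>] 0, η < (QT y0 * re A).coeff k := by
      intro k hk
      exact (Filter.Eventually.filter_mono nhdsWithin_le_nhds (eventually_lt_nhds (hpos k hk).1))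
    have h2 := (Filter.eventually_all_finset (range (K + 1))).2 h1
    exact (h2.and self_mem_nhdsWithin).exists
  have hev : ∀ᶠ y in 𝓝 y0, ∀ k ∈ range (K + 1), η < (QT y * re A).coeff k ∧ (QT y * re A).coeff k < 2 ∧
      ((QT y0 * re A).coeff k < 1 → (QT y * re A).coeff k < 1) := by
    rw [Filter.eventually_all_finset]
    intro k hk
    have hc := (continuous_mul_coeff (m := m) (re A) k).tendsto y0
    have e1 := hc.eventually_const_lt (hη k hk)
    have e2 := hc.eventually_lt_const (show (QT y0 * re A).coeff k < 2 by linarith [(hpos k hk).2])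
    have e3 : ∀ᶠ y in 𝓝 y0, ((QT y0 * re A).coeff k < 1 → (QT y * re A).coeff k < 1) := by
      by_cases h : (QT y0 * re A).coeff k < 1
      · filter_upwards [hc.eventually_lt_const h] with y hy _ using hy
      · exact Filter.Eventually.of_forall fun y h' => absurd h' h
    filter_upwards [e1, e2, e3] with y a b c using ⟨a, b, c⟩
  obtain ⟨U, hU, hUo, hyU⟩ := eventually_nhds_iff.1 hev
  refine ⟨U, hUo, hyU, η / 2, by positivity, ?_⟩
  intro y hy b hb0 hb k hk1 hk2
  obtain ⟨k', rfl⟩ : ∃ k', k = k' + 1 := ⟨k - 1, by omega⟩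
  rw [hp_mul_coeff_succ]
  obtain ⟨a1, a2, a3⟩ := hU y hy (k' + 1) (mem_range.2 (by omega))
  obtain ⟨b1, b2, _⟩ := hU y hy k' (mem_range.2 (by omega))
  have hb2 : b * (QT y * re A).coeff k' ≤ η := by nlinarith
  have hb3 : 0 < b * (QT y * re A).coeff k' := mul_pos hb0 (by linarith)
  refine ⟨by linarith, ?_⟩
  rcases lt_or_eq_of_le (hA1 (k' + 1) (by omega) hk2).2 with h | h
  · have := a3 h; linarith
  · have h4 : ∀ z : Fin m → UnitAddCircle, (QT z * re A).coeff (k' + 1) = 1 := by
      by_contra hcon
      exact hy0 ⟨A, k' + 1, h, hcon⟩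
    rw [h4 y]; linarith

end Pool.Agent.K9h56.PD
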