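import Mathlib
import Pool.Agent.K9h56.PD.AlgB
import Pool.Agent.K9h56.PD.Dyn

/-!
# Pisot numbers are Parry numbers
-/

set_option autoImplicit false

namespace Pool.Agent.K9h56.PD

open Polynomial Pool.Agent.H196R3.Parry Pool.Agent.R329.Par

theorem RR_bound {B : ℝ} (hB : 1 < B) {z : ℂ} (hz : ‖z‖ < 1) (k : ℕ) :
    ‖aeval z (RR B k)‖ ≤ 1 + B / (1 - ‖z‖) := by
  have h1 : 0 < 1 - ‖z‖ := by linarith
  induction k with
  | zero =>
    simp only [RR, map_one, norm_one]
    have : 0 ≤ B / (1 - ‖z‖) := by positivity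
    linarith
  | succ k ih =>
    rw [RR, map_sub, map_mul, aeval_X, aeval_C]
    have h2 : ‖(algebraMap ℤ ℂ ⌊B * orb B k⌋)‖ ≤ B := by
      rw [eq_intCast, Complex.norm_intCast]
      have h3 := orb_nonneg B k
      have h4 := orb_le_one B k
      have h5 : (0 : ℝ) ≤ (⌊B * orb B k⌋ : ℝ) := by
        have : 0 ≤ ⌊B * orb B k⌋ := Int.floor_nonneg.2 (by positivity)
        exact_mod_cast this
      rw [abs_of_nonneg h5]
      refine (Int.floor_le _).trans ?_
      nlinarith
    calc ‖z * aeval z (RR B k) - algebraMap ℤ ℂ ⌊B * orb B k⌋‖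
        ≤ ‖z * aeval z (RR B k)‖ + ‖algebraMap ℤ ℂ ⌊B * orb B k⌋‖ := norm_sub_le _ _
      _ ≤ ‖z‖ * (1 + B / (1 - ‖z‖)) + B := by
          rw [norm_mul]
          exact add_le_add (mul_le_mul_of_nonneg_left ih (norm_nonneg _)) h2
      _ ≤ 1 + B / (1 - ‖z‖) := by
          have h3 : B / (1 - ‖z‖) * (1 - ‖z‖) = B := div_mul_cancel₀ _ h1.ne'
          have h4 : ‖z‖ * (1 + B / (1 - ‖z‖)) + B = ‖z‖ + B / (1 - ‖z‖) := by
            have : ‖z‖ * (1 + B / (1 - ‖z‖)) + B = ‖z‖ + (B / (1 - ‖z‖) - B / (1 - ‖z‖) * (1 - ‖z‖)) + B := by ring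
            rw [this, h3]; ring
          rw [h4]; linarith

theorem pisot_parry {B : ℝ} (hB : 1 < B) (hint : IsIntegral ℤ B)
    (hconj : ∀ z : ℂ, aeval z (minpoly ℤ B) = 0 → z ≠ (B : ℂ) → ‖z‖ < 1) : (Set.range (orb B)).Finite := by
  classical
  have hintq : IsIntegral ℚ B := hint.tower_top
  let K := IntermediateField.adjoin ℚ ({B} : Set ℝ)
  have hfd : FiniteDimensional ℚ K := IntermediateField.adjoin.finiteDimensional hintq
  have hnf : NumberField K := { to_charZero := inferInstance, to_finiteDimensional := hfd }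
  set b : K := IntermediateField.AdjoinSimple.gen ℚ B with hb
  have hbB : algebraMap K ℝ b = B := IntermediateField.AdjoinSimple.algebraMap_gen ℚ B
  set M : ℝ := 1 + ∑ z ∈ SS B, |1 + B / (1 - ‖z‖)| with hM
  have hfin := NumberField.Embeddings.finite_of_norm_le K ℂ M
  have hinjK : Function.Injective (algebraMap K ℝ) := (algebraMap K ℝ).injective
  have hbint : IsIntegral ℤ b := by
    rw [← isIntegral_algebraMap_iff (B := ℝ) hinjK, hbB]; exact hint
  have hx : ∀ k, aeval b (RR B k) ∈ {x : K | IsIntegral ℤ x ∧ ∀ φ : K →+* ℂ, ‖φ x‖ ≤ M} := by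
    intro k
    refine ⟨?_, ?_⟩
    · have : (aeval b (RR B k)) ∈ Algebra.adjoin ℤ {b} := aeval_mem_adjoin_singleton ℤ b
      exact adjoin_le_integralClosure hbint this
    · intro φ
      have h1 : φ (aeval b (RR B k)) = aeval (φ b) (RR B k) := by
        rw [aeval_def, aeval_def, hom_eval₂]
        congr 1
        exact Subsingleton.elim _ _
      have h2 : aeval (φ b) (minpoly ℤ B) = 0 := by
        have h3 : aeval b (minpoly ℤ B) = 0 := by
          apply hinjK
          rw [map_zero, ← aeval_algebraMap_apply, hbB, minpoly.aeval]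
        have h4 : φ (aeval b (minpoly ℤ B)) = aeval (φ b) (minpoly ℤ B) := by
          rw [aeval_def, aeval_def, hom_eval₂]
          congr 1
          exact Subsingleton.elim _ _
        rw [← h4, h3, map_zero]
      rw [h1]
      have hnn : 0 ≤ ∑ z ∈ SS B, |1 + B / (1 - ‖z‖)| := Finset.sum_nonneg fun z _ => abs_nonneg _
      by_cases h5 : φ b = (B : ℂ)
      · rw [h5]
        have h6 : aeval (B : ℂ) (RR B k) = ((orb B k : ℝ) : ℂ) := by
          rw [← RR_eval B k]
          exact aeval_algebraMap_apply ℂ B _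
        rw [h6, Complex.norm_real, Real.norm_eq_abs, abs_of_nonneg (orb_nonneg B k)]
        have := orb_le_one B k
        linarith
      · refine (RR_bound hB (hconj _ h2 h5) k).trans ((le_abs_self _).trans ?_)
        have h6 : |1 + B / (1 - ‖φ b‖)| ≤ ∑ z ∈ SS B, |1 + B / (1 - ‖z‖)| :=
          Finset.single_le_sum (f := fun z : ℂ => |1 + B / (1 - ‖z‖)|) (fun z _ => abs_nonneg _)
            ((mem_SS hint).2 h2)
        linarith
  have himg := hfin.image (algebraMap K ℝ)
  apply himg.subset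
  rintro _ ⟨k, rfl⟩
  refine ⟨aeval b (RR B k), hx k, ?_⟩
  rw [← aeval_algebraMap_apply, hbB, RR_eval]

end Pool.Agent.K9h56.PD
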