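import Mathlib
import Pool.Agent.H767R2.Weyl
import Pool.Agent.K9h56.PD.Equi
import Pool.Agent.K9h56.PD.Dyn
import Pool.Agent.K9h56.PD.Torus
import Pool.Agent.K9h56.PD.Pisot

/-!
# The limit law for the expansions of `1` in the powers of a Salem number
-/

set_option autoImplicit false

namespace Pool.Agent.K9h56.PD

open Polynomial Finset Filter Topology MeasureTheory Pool.Agent.H446R3.SK Pool.Agent.H767R2
open Pool.Agent.H196R3.Parry Pool.Agent.R329.Par

/-- a sequence of exponents which tends to infinity and all of whose irrational multiples are equidistributed -/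
def Good (e : ℕ → ℕ) : Prop :=
  Tendsto e atTop atTop ∧ ∀ α : ℝ, Irrational α → Tendsto (cav fun n => ee (α * e n)) atTop (𝓝 0)

/-- the points of the torus for which the product with `A` has its middle coefficients in `(0, 1)` -/
def Reg (m : ℕ) (A : ℤ[X]) : Set (Fin m → UnitAddCircle) :=
  {y | ∀ k, 0 < k → k < 2 * m + A.natDegree →
    0 < (QT y * A.map (Int.castRingHom ℝ)).coeff k ∧ (QT y * A.map (Int.castRingHom ℝ)).coeff k < 1}

/-- the union of the regions -/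
def RegAll (m : ℕ) : Set (Fin m → UnitAddCircle) := {y | ∃ A : ℤ[X], A.Monic ∧ A.coeff 0 = 1 ∧ y ∈ Reg m A}

/-- the point `t θ` of the torus -/
def pt {m : ℕ} (θ : Fin m → ℝ) (t : ℝ) : Fin m → UnitAddCircle := fun j => ((t * θ j : ℝ) : UnitAddCircle)

theorem QT_pt {m : ℕ} (θ : Fin m → ℝ) (t : ℝ) : QT (pt θ t) = QQ (fun j => Real.cos (2 * Real.pi * (t * θ j))) := by
  unfold QT pt
  congr 1
  funext j
  exact cs_coe _

theorem mF_pt {m : ℕ} (θ : Fin m → ℝ) (t : ℝ) (k : Fin m → ℤ) : mF k (pt θ t) = ee ((∑ j, (k j : ℝ) * θ j) * t) := by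
  simp only [mF, UnitAddTorus.mFourier, ContinuousMap.coe_mk, pt, fourier_coe_apply]
  rw [← Complex.exp_sum, ee]
  congr 1
  push_cast
  rw [Finset.sum_mul, Finset.mul_sum, Finset.sum_mul]
  apply Finset.sum_congr rfl
  intro j _
  rw [div_one]; ring

theorem equi_of_good {m : ℕ} {θ : Fin m → ℝ} (hθ : ∀ k : Fin m → ℤ, k ≠ 0 → Irrational (∑ j, (k j : ℝ) * θ j))
    {e : ℕ → ℕ} (he : Good e) : Equi (fun n => pt θ (e n)) := by
  intro k hk
  have h1 := he.2 _ (hθ k hk)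
  refine h1.congr fun N => ?_
  unfold cav
  congr 1
  apply Finset.sum_congr rfl
  intro n _
  rw [mF_pt]

/-- thick regions -/
def Th (m : ℕ) (A : ℤ[X]) (i : ℕ) : Set (Fin m → UnitAddCircle) :=
  {y | ∀ k ∈ Ioo 0 (2 * m + A.natDegree),
    1 / ((i : ℝ) + 1) < (QT y * A.map (Int.castRingHom ℝ)).coeff k ∧ (QT y * A.map (Int.castRingHom ℝ)).coeff k < 1}

theorem isOpen_Th (m : ℕ) (A : ℤ[X]) (i : ℕ) : IsOpen (Th m A i) := by
  have h : Th m A i = ⋂ k ∈ Ioo 0 (2 * m + A.natDegree), {y : Fin m → UnitAddCircle |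
      1 / ((i : ℝ) + 1) < (QT y * A.map (Int.castRingHom ℝ)).coeff k ∧
      (QT y * A.map (Int.castRingHom ℝ)).coeff k < 1} := by
    ext y; simp [Th]
  rw [h]
  apply isOpen_biInter_finset
  intro k _
  exact (isOpen_lt continuous_const (continuous_mul_coeff _ k)).inter
    (isOpen_lt (continuous_mul_coeff _ k) continuous_const)

theorem exists_Th {m : ℕ} {A : ℤ[X]} {y : Fin m → UnitAddCircle} (hy : y ∈ Reg m A) : ∃ i, y ∈ Th m A i := by
  have h1 : ∀ k ∈ Ioo 0 (2 * m + A.natDegree), ∀ᶠ i : ℕ in atTop,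
      1 / ((i : ℝ) + 1) < (QT y * A.map (Int.castRingHom ℝ)).coeff k := by
    intro k hk
    rw [mem_Ioo] at hk
    exact tendsto_one_div_add_atTop_nhds_zero_nat.eventually_lt_const (hy k hk.1 hk.2).1
  have h2 := (Filter.eventually_all_finset (Ioo 0 (2 * m + A.natDegree))).2 h1
  obtain ⟨i, hi⟩ := h2.exists
  refine ⟨i, fun k hk => ⟨hi k hk, ?_⟩⟩
  rw [mem_Ioo] at hk
  exact (hy k hk.1 hk.2).2

variable {β : ℝ} {m : ℕ} {θ : Fin m → ℝ}

/-- the factorizations of the minimal polynomials of the powers -/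
def Fac (β : ℝ) (m : ℕ) (θ : Fin m → ℝ) : Prop :=
  ∀ n : ℕ, 1 ≤ n → (minpoly ℤ (β ^ n)).natDegree = 2 * m + 2 ∧
      (minpoly ℤ (β ^ n)).map (Int.castRingHom ℝ) = (X - C (β ^ n)) * ((X - C (β ^ n)⁻¹) *
        QQ (fun j => Real.cos (2 * Real.pi * (n * θ j))))

theorem closes_of_mem (hβ : 1 < β) (hfac : Fac β m θ) {A : ℤ[X]} (hA : A.Monic) (hA0 : A.coeff 0 = 1)
    {n i : ℕ} (hn : 1 ≤ n) (hni : (β ^ n)⁻¹ ≤ 1 / ((i : ℝ) + 1)) (h : pt θ n ∈ Th m A i) :
    orb (β ^ n) (2 * m + A.natDegree + 2) = orb (β ^ n) 1 := by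
  have hAm : (A.map (Int.castRingHom ℝ)).Monic := hA.map _
  apply closes (F := minpoly ℤ (β ^ n) * A) (g := QT (pt θ n) * A.map (Int.castRingHom ℝ))
    (one_lt_pow₀ hβ (by omega))
  · rw [QT_pt]
    exact (QQ_monic _).mul hAm
  · rw [QT_pt, (QQ_monic _).natDegree_mul hAm, QQ_natDegree, hA.natDegree_map]
  · rw [QT_pt, mul_coeff_zero, QQ_coeff_zero, coeff_map, hA0]
    simp
  · rw [Polynomial.map_mul, (hfac n hn).2, QT_pt]
    ring
  · intro k hk0 hk
    obtain ⟨h1, h2⟩ := h k (mem_Ioo.2 ⟨hk0, hk⟩)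
    exact ⟨lt_of_le_of_lt hni h1, h2⟩

theorem ev_large (hβ : 1 < β) {e : ℕ → ℕ} (he : Tendsto e atTop atTop) (ε : ℝ) (hε : 0 < ε) :
    ∀ᶠ n in atTop, 1 ≤ e n ∧ (β ^ (e n))⁻¹ ≤ ε := by
  have h1 : Tendsto (fun n => β ^ (e n)) atTop atTop := (tendsto_pow_atTop_atTop_of_one_lt hβ).comp he
  filter_upwards [he.eventually_ge_atTop 1, h1.eventually_ge_atTop (1 / ε)] with n h2 h3
  refine ⟨h2, ?_⟩
  rw [inv_le_comm₀ (by positivity) hε, ← one_div]
  exact h3

/-- the lower density of the Parry powers -/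
theorem lower_parry (hβ : 1 < β) (hfac : Fac β m θ)
    (hθ : ∀ k : Fin m → ℤ, k ≠ 0 → Irrational (∑ j, (k j : ℝ) * θ j)) {e : ℕ → ℕ} (he : Good e) {c : ℝ}
    (hc : c < (volume (RegAll m)).toReal) :
    ∀ᶠ N : ℕ in atTop, c * N ≤ (cnt (fun n => (Set.range (orb (β ^ (e n)))).Finite) N : ℝ) := by
  have hsub : RegAll m ⊆ ⋃ a : {A : ℤ[X] // A.Monic ∧ A.coeff 0 = 1} × ℕ, Th m a.1.1 a.2 := by
    rintro y ⟨A, hA, hA0, hy⟩
    obtain ⟨i, hi⟩ := exists_Th hy
    exact Set.mem_iUnion.2 ⟨(⟨A, hA, hA0⟩, i), hi⟩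
  refine lower_density (equi_of_good hθ he) (fun a : {A : ℤ[X] // A.Monic ∧ A.coeff 0 = 1} × ℕ => Th m a.1.1 a.2)
    (fun a => isOpen_Th m _ _) _ ?_ (lt_of_lt_of_le hc (ENNReal.toReal_mono (measure_ne_top _ _)
      (measure_mono hsub)))
  rintro ⟨⟨A, hA, hA0⟩, i⟩
  filter_upwards [ev_large hβ he.1 (1 / ((i : ℝ) + 1)) (by positivity)] with n hn hmem
  have h1 := closes_of_mem hβ hfac hA hA0 hn.1 hn.2 hmem
  exact finite_orb (a := 1) (by omega) h1

theorem Reg_one (m : ℕ) : Reg m 1 = {y : Fin m → UnitAddCircle | ∀ k, 0 < k → k < 2 * m →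
    0 < (QT y).coeff k ∧ (QT y).coeff k < 1} := by
  unfold Reg
  simp

theorem lower_short (hβ : 1 < β) (hfac : Fac β m θ)
    (hθ : ∀ k : Fin m → ℤ, k ≠ 0 → Irrational (∑ j, (k j : ℝ) * θ j)) {e : ℕ → ℕ} (he : Good e) {c : ℝ}
    (hc : c < (volume (Reg m 1)).toReal) :
    ∀ᶠ N : ℕ in atTop, c * N ≤ (cnt (fun n => orb (β ^ (e n)) (2 * m + 2) = orb (β ^ (e n)) 1) N : ℝ) := by
  have hsub : Reg m 1 ⊆ ⋃ i : ℕ, Th m 1 i := by
    intro y hy
    obtain ⟨i, hi⟩ := exists_Th hy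
    exact Set.mem_iUnion.2 ⟨i, hi⟩
  refine lower_density (equi_of_good hθ he) (fun i : ℕ => Th m 1 i)
    (fun i => isOpen_Th m _ _) _ ?_ (lt_of_lt_of_le hc (ENNReal.toReal_mono (measure_ne_top _ _)
      (measure_mono hsub)))
  intro i
  filter_upwards [ev_large hβ he.1 (1 / ((i : ℝ) + 1)) (by positivity)] with n hn hmem
  have h1 := closes_of_mem hβ hfac monic_one (by simp) hn.1 hn.2 hmem
  simpa using h1

/-- closed neighbourhoods of the region -/
def Fc (m : ℕ) (i : ℕ) : Set (Fin m → UnitAddCircle) :=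
  {y | ∀ k ∈ Ioo 0 (2 * m), - (1 / ((i : ℝ) + 1)) ≤ (QT y).coeff k ∧ (QT y).coeff k ≤ 1 + 1 / ((i : ℝ) + 1)}

theorem isClosed_Fc (m i : ℕ) : IsClosed (Fc m i) := by
  have h : Fc m i = ⋂ k ∈ Ioo 0 (2 * m), {y : Fin m → UnitAddCircle |
      - (1 / ((i : ℝ) + 1)) ≤ (QT y).coeff k ∧ (QT y).coeff k ≤ 1 + 1 / ((i : ℝ) + 1)} := by
    ext y; simp [Fc]
  rw [h]
  apply isClosed_biInter
  intro k _
  exact (isClosed_le continuous_const (continuous_QT_coeff k)).inter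
    (isClosed_le (continuous_QT_coeff k) continuous_const)

theorem vol_Fc (m : ℕ) : (volume (⋂ i, Fc m i)).toReal ≤ (volume (Reg m 1)).toReal := by
  have hsub : (⋂ i, Fc m i) ⊆ Reg m 1 ∪ ⋃ k ∈ Ioo 0 (2 * m),
      ({y : Fin m → UnitAddCircle | (QT y).coeff k = 0} ∪ {y : Fin m → UnitAddCircle | (QT y).coeff k = 1}) := by
    intro y hy
    rw [Set.mem_iInter] at hy
    by_cases hR : y ∈ Reg m 1
    · exact Or.inl hR
    right
    rw [Reg_one, Set.mem_ofPred_eq] at hR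
    push Not at hR
    obtain ⟨k, hk0, hk, hkk⟩ := hR
    rw [Set.mem_iUnion₂]
    refine ⟨k, mem_Ioo.2 ⟨hk0, hk⟩, ?_⟩
    have h1 : 0 ≤ (QT y).coeff k := by
      apply le_of_forall_pos_lt_add
      intro ε hε
      obtain ⟨i, hi⟩ := (tendsto_one_div_add_atTop_nhds_zero_nat.eventually_lt_const hε).exists
      have := (hy i k (mem_Ioo.2 ⟨hk0, hk⟩)).1
      linarith
    have h2 : (QT y).coeff k ≤ 1 := by
      apply le_of_forall_pos_lt_add
      intro ε hε
      obtain ⟨i, hi⟩ := (tendsto_one_div_add_atTop_nhds_zero_nat.eventually_lt_const hε).exists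
      have := (hy i k (mem_Ioo.2 ⟨hk0, hk⟩)).2
      linarith
    rcases eq_or_lt_of_le h1 with h3 | h3
    · left; exact h3.symm
    · right; exact le_antisymm h2 (hkk h3)
  have hnull : volume (⋃ k ∈ Ioo 0 (2 * m),
      ({y : Fin m → UnitAddCircle | (QT y).coeff k = 0} ∪ {y : Fin m → UnitAddCircle | (QT y).coeff k = 1})) = 0 := by
    refine (measure_biUnion_null_iff (Finset.countable_toSet (Ioo 0 (2 * m)))).2 ?_
    intro k hk
    rw [SetLike.mem_coe, mem_Ioo] at hk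
    rw [measure_union_null_iff]
    exact ⟨null_coeff m k hk.1 hk.2 0, null_coeff m k hk.1 hk.2 1⟩
  apply ENNReal.toReal_mono (measure_ne_top _ _)
  refine (measure_mono hsub).trans ((measure_union_le _ _).trans ?_)
  rw [hnull, add_zero]

theorem mem_Fc_of_short (hβ : 1 < β) (hint : IsIntegral ℤ β) (hfac : Fac β m θ) {n i : ℕ} (hn : 1 ≤ n)
    (hni : (β ^ n)⁻¹ ≤ 1 / (2 * ((i : ℝ) + 1))) (h : orb (β ^ n) (2 * m + 2) = orb (β ^ n) 1) :
    pt θ n ∈ Fc m i := by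
  set g := QQ (fun j => Real.cos (2 * Real.pi * (n * θ j))) with hg
  have hB : 1 < β ^ n := one_lt_pow₀ hβ (by omega)
  have hBi : 0 < (β ^ n)⁻¹ := inv_pos.2 (by linarith)
  have hBi1 : (β ^ n)⁻¹ < 1 := inv_lt_one_of_one_lt₀ hB
  have h1 := of_closes (hint.pow n) (QQ_monic _) (QQ_natDegree _) (hfac n hn).1 (hfac n hn).2 h
  rw [← hg] at h1
  have hi0 : (0 : ℝ) < (i : ℝ) + 1 := by positivity
  have hhalf : 1 / (2 * ((i : ℝ) + 1)) = (1 / ((i : ℝ) + 1)) / 2 := by field_simp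
  -- the coefficients
  have h2 : ∀ j, j < 2 * m → 0 ≤ g.coeff j - (β ^ n)⁻¹ * g.coeff (j + 1) ∧
      g.coeff j - (β ^ n)⁻¹ * g.coeff (j + 1) < 1 := by
    intro j hj
    have h3 := h1 (2 * m - j) (by omega)
    rw [show 2 * m + 1 - (2 * m - j) = j + 1 by omega, HH_coeff_succ] at h3
    rw [← h3]
    have h4 : 2 * m - j = (2 * m - j - 1) + 1 := by omega
    rw [h4, orb_succ]
    exact ⟨Int.fract_nonneg _, Int.fract_lt_one _⟩
  have htop : g.coeff (2 * m) = 1 := by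
    have h3 := QQ_monic (fun j => Real.cos (2 * Real.pi * (n * θ j)))
    rw [Monic, leadingCoeff, QQ_natDegree, ← hg] at h3
    exact h3
  have h5 : ∀ l, l ≤ 2 * m → 0 ≤ g.coeff (2 * m - l) ∧ g.coeff (2 * m - l) ≤ 1 + 2 * (β ^ n)⁻¹ ∧
      g.coeff (2 * m - l) ≤ 1 / (1 - (β ^ n)⁻¹) := by
    intro l
    induction l with
    | zero =>
      intro _
      rw [Nat.sub_zero, htop]
      refine ⟨by norm_num, by linarith, ?_⟩
      rw [le_div_iff₀ (by linarith)]; linarith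
    | succ l ih =>
      intro hl
      obtain ⟨i1, _, i3⟩ := ih (by omega)
      obtain ⟨h6, h7⟩ := h2 (2 * m - (l + 1)) (by omega)
      rw [show 2 * m - (l + 1) + 1 = 2 * m - l by omega] at h6 h7
      have h8 : 0 ≤ (β ^ n)⁻¹ * g.coeff (2 * m - l) := by positivity
      have h9 : (β ^ n)⁻¹ * g.coeff (2 * m - l) ≤ (β ^ n)⁻¹ * (1 / (1 - (β ^ n)⁻¹)) :=
        mul_le_mul_of_nonneg_left i3 hBi.le
      have h10 : 1 + (β ^ n)⁻¹ * (1 / (1 - (β ^ n)⁻¹)) = 1 / (1 - (β ^ n)⁻¹) := by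
        have key : ∀ b : ℝ, 1 - b ≠ 0 → 1 + b * (1 / (1 - b)) = 1 / (1 - b) := by
          intro b hb
          rw [eq_div_iff hb, add_mul, mul_assoc, one_div, inv_mul_cancel₀ hb]; ring
        exact key _ (by linarith)
      have h11 : 1 / (1 - (β ^ n)⁻¹) ≤ 2 := by
        rw [div_le_iff₀ (by linarith)]
        have : 1 / (2 * ((i : ℝ) + 1)) ≤ 1 / 2 := by
          apply one_div_le_one_div_of_le (by norm_num)
          have : (0 : ℝ) ≤ i := by positivity
          linarith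
        linarith
      refine ⟨by linarith, ?_, by linarith⟩
      have h12 : (β ^ n)⁻¹ * (1 / (1 - (β ^ n)⁻¹)) ≤ (β ^ n)⁻¹ * 2 := mul_le_mul_of_nonneg_left h11 hBi.le
      linarith
  intro k hk
  rw [mem_Ioo] at hk
  rw [QT_pt, ← hg]
  have h6 := h5 (2 * m - k) (by omega)
  rw [show 2 * m - (2 * m - k) = k by omega] at h6
  have h7 : (0 : ℝ) < 1 / ((i : ℝ) + 1) := by positivity
  constructor
  · linarith [h6.1]
  · rw [hhalf] at hni
    linarith [h6.2.1]

theorem cnt_add (P : ℕ → Prop) (N : ℕ) : cnt P N + cnt (fun n => ¬ P n) N = N := by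
  classical
  unfold cnt
  have h := Finset.card_filter_add_card_filter_not (s := range N) P
  rw [card_range] at h
  convert h

/-- the density of the powers with the shortest possible expansion -/
theorem density_short (hβ : 1 < β) (hint : IsIntegral ℤ β) (hfac : Fac β m θ)
    (hθ : ∀ k : Fin m → ℤ, k ≠ 0 → Irrational (∑ j, (k j : ℝ) * θ j)) {e : ℕ → ℕ} (he : Good e) :
    Tendsto (fun N : ℕ => (cnt (fun n => orb (β ^ (e n)) (2 * m + 2) = orb (β ^ (e n)) 1) N : ℝ) / N) atTop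
      (𝓝 (volume (Reg m 1)).toReal) := by
  set δ := (volume (Reg m 1)).toReal with hδ
  rw [Metric.tendsto_atTop]
  intro ε hε
  have hlow := lower_short hβ hfac hθ he (c := δ - ε / 2) (by linarith)
  have hup : ∀ᶠ N : ℕ in atTop, (1 - δ - ε / 2) * N ≤
      (cnt (fun n => ¬ (orb (β ^ (e n)) (2 * m + 2) = orb (β ^ (e n)) 1)) N : ℝ) := by
    have hvol : 1 - δ ≤ (volume (⋃ i, (Fc m i)ᶜ)).toReal := by
      rw [← Set.compl_iInter, prob_compl_eq_one_sub (MeasurableSet.iInter fun i => (isClosed_Fc m i).measurableSet),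
        ENNReal.toReal_sub_of_le prob_le_one ENNReal.one_ne_top, ENNReal.toReal_one]
      have := vol_Fc m
      linarith
    refine lower_density (equi_of_good hθ he) (fun i : ℕ => (Fc m i)ᶜ)
      (fun i => (isClosed_Fc m i).isOpen_compl) _ ?_ (by linarith)
    intro i
    filter_upwards [ev_large hβ he.1 (1 / (2 * ((i : ℝ) + 1))) (by positivity)] with n hn hmem hshort
    exact hmem (mem_Fc_of_short hβ hint hfac hn.1 hn.2 hshort)
  obtain ⟨N0, hN0⟩ := eventually_atTop.1 (hlow.and (hup.and (eventually_gt_atTop 0)))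
  refine ⟨N0, fun N hN => ?_⟩
  obtain ⟨h1, h2, h3⟩ := hN0 N hN
  have hNpos : (0 : ℝ) < N := by exact_mod_cast h3
  have h4 := cnt_add (fun n => orb (β ^ (e n)) (2 * m + 2) = orb (β ^ (e n)) 1) N
  have h5 : (cnt (fun n => orb (β ^ (e n)) (2 * m + 2) = orb (β ^ (e n)) 1) N : ℝ) +
      (cnt (fun n => ¬ (orb (β ^ (e n)) (2 * m + 2) = orb (β ^ (e n)) 1)) N : ℝ) = N := by exact_mod_cast h4
  rw [Real.dist_eq, abs_lt]
  constructor
  · rw [lt_sub_iff_add_lt, lt_div_iff₀ hNpos]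
    nlinarith
  · rw [sub_lt_iff_lt_add, div_lt_iff₀ hNpos]
    nlinarith

theorem vol_pos {m : ℕ} (hm : 1 ≤ m) : 0 < (volume (Reg m 1)).toReal := by
  obtain ⟨x, hx⟩ := exists_point hm
  set y : Fin m → UnitAddCircle := fun j => ((x j : ℝ) : UnitAddCircle) with hy
  have hQ : QT y = QQ (fun j => Real.cos (2 * Real.pi * x j)) := by
    unfold QT
    congr 1
    funext j
    exact cs_coe _
  have hmem : y ∈ Reg m 1 := by
    rw [Reg_one, Set.mem_ofPred_eq, hQ]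
    exact hx
  obtain ⟨i, hi⟩ := exists_Th hmem
  have hsub : Th m 1 i ⊆ Reg m 1 := by
    intro z hz
    rw [Reg_one, Set.mem_ofPred_eq]
    intro k hk0 hk
    have h1 := hz k (mem_Ioo.2 ⟨hk0, by simpa using hk⟩)
    simp only [Polynomial.map_one, mul_one] at h1
    exact ⟨lt_trans (by positivity) h1.1, h1.2⟩
  have h1 : 0 < volume (Th m 1 i) := (isOpen_Th m 1 i).measure_pos volume ⟨y, hi⟩
  exact ENNReal.toReal_pos (lt_of_lt_of_le h1 (measure_mono hsub)).ne' (measure_ne_top _ _)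

theorem Reg_sub (m : ℕ) : Reg m 1 ⊆ RegAll m := fun _ hy => ⟨1, monic_one, by simp, hy⟩

/-- Perron numbers -/
theorem perron_cases {β : ℝ} (h : IsPerron β) (hinf : ¬ (parryPowers β).Finite) :
    IsSalem β ∨ ∀ n : ℕ, 1 ≤ n → n ∈ parryPowers β := by
  obtain ⟨hβ, hint, hperron⟩ := h
  have hone : ∀ z : ℂ, aeval z (minpoly ℤ β) = 0 → z ≠ (β : ℂ) → ‖z‖ ≤ 1 :=
    fun z hz hne => conj_le_one hβ hint hperron hinf hz hne
  by_cases hs : ∃ z : ℂ, aeval z (minpoly ℤ β) = 0 ∧ ‖z‖ = 1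
  · left
    exact ⟨hβ, hint, hone, hs⟩
  · right
    push Not at hs
    intro n hn
    refine ⟨hn, ?_⟩
    apply pisot_parry (one_lt_pow₀ hβ (by omega)) (hint.pow n)
    intro z hz hne
    obtain ⟨w, hw, rfl⟩ := conj_pow hint hz
    have hwne : w ≠ (β : ℂ) := by
      rintro rfl
      apply hne
      push_cast
      rfl
    rw [norm_pow]
    exact pow_lt_one₀ (norm_nonneg _) (lt_of_le_of_ne (hone w hw hwne) (hs w hw)) (by omega)

end Pool.Agent.K9h56.PD
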