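import Mathlib
import Pool.Agent.K9h56.PD.Local
import Pool.Agent.K9h56.PD.Main

/-!
# The limit law for the number of elements of the orbit of `1` in the powers of a Salem number
-/

set_option autoImplicit false

namespace Pool.Agent.K9h56.PD

open Polynomial Finset Filter Topology MeasureTheory Pool.Agent.H446R3.SK Pool.Agent.H767R2
open Pool.Agent.H196R3.Parry Pool.Agent.R329.Par

/-- closed up after `s - 1` steps -/
def WW (m s : ℕ) : Set (Fin m → UnitAddCircle) :=
  {y | ∃ A : ℤ[X], A.Monic ∧ A.coeff 0 = 1 ∧ 2 * m + 2 + A.natDegree ≤ s ∧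
    ∀ k, 0 < k → k < 2 * m + A.natDegree → 0 < (QT y * re A).coeff k ∧ (QT y * re A).coeff k ≤ 1}

/-- the orbit of `1` has at most `s` elements -/
def Ev (B : ℝ) (s : ℕ) : Prop := ∃ k, k ≤ s ∧ ∃ j, j < k ∧ orb B k = orb B j

theorem Fac_re {β : ℝ} {m : ℕ} {θ : Fin m → ℝ} (h : Fac β m θ) {n : ℕ} (hn : 1 ≤ n) :
    re (minpoly ℤ (β ^ n)) = (X - C (β ^ n)) * ((X - C (β ^ n)⁻¹) * QT (pt θ n)) := by
  rw [QT_pt]; exact (h n hn).2

/-- points of `WW` -/
theorem ev_of_WW {β : ℝ} {m : ℕ} {θ : Fin m → ℝ} (hm : 1 ≤ m) (hβ : 1 < β) (hfac : Fac β m θ) {s : ℕ}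
    {y0 : Fin m → UnitAddCircle} (hy0 : y0 ∉ ZZ m) (hW : y0 ∈ WW m s) :
    ∃ U : Set (Fin m → UnitAddCircle), IsOpen U ∧ y0 ∈ U ∧ ∃ ε : ℝ, 0 < ε ∧
      ∀ n : ℕ, 1 ≤ n → (β ^ n)⁻¹ ≤ ε → pt θ n ∈ U → Ev (β ^ n) s := by
  obtain ⟨A, hA, hA0, hs, hA1⟩ := hW
  set D := 2 * m + A.natDegree with hD
  set A' : ℤ[X] := A + (X ^ (D + 1) + C (A.coeff 1) * X ^ (D + 2)) with hA'
  have hre : re A' = re A + (X ^ (D + 1) + C (A.coeff 1 : ℝ) * X ^ (D + 2)) := by
    rw [hA']; simp [re]
  have hcoef : ∀ (y : Fin m → UnitAddCircle) (k : ℕ), (QT y * re A').coeff k = (QT y * re A).coeff k +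
      ((if D + 1 ≤ k then (QT y).coeff (k - (D + 1)) else 0) +
        (if D + 2 ≤ k then (A.coeff 1 : ℝ) * (QT y).coeff (k - (D + 2)) else 0)) := by
    intro y k
    have h1 : QT y * (X ^ (D + 1) + C (A.coeff 1 : ℝ) * X ^ (D + 2)) =
        QT y * X ^ (D + 1) + C (A.coeff 1 : ℝ) * QT y * X ^ (D + 2) := by ring
    rw [hre, mul_add, coeff_add, h1, coeff_add, coeff_mul_X_pow', coeff_mul_X_pow']
    congr 2
    split_ifs
    · rw [coeff_C_mul]
    · rfl
  have hAm : (re A).Monic := hA.map _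
  have hdeg : ∀ y : Fin m → UnitAddCircle, (QT y * re A).natDegree = D := by
    intro y
    rw [(QT_monic y).natDegree_mul hAm, QT_natDegree, hA.natDegree_map]
  have htop : ∀ y : Fin m → UnitAddCircle, (QT y * re A).coeff D = 1 := by
    intro y
    have h := (QT_monic y).mul hAm
    rw [Monic, leadingCoeff, hdeg] at h
    exact h
  have hhi : ∀ (y : Fin m → UnitAddCircle) (k : ℕ), D < k → (QT y * re A).coeff k = 0 := by
    intro y k hk
    exact coeff_eq_zero_of_natDegree_lt (by rw [hdeg]; exact hk)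
  have hone : ∀ y : Fin m → UnitAddCircle, (QT y * re A).coeff 1 = (QT y).coeff 1 + A.coeff 1 := by
    intro y
    rw [coeff_mul, Finset.Nat.sum_antidiagonal_eq_sum_range_succ (fun i j => (QT y).coeff i * (re A).coeff j),
      Finset.sum_range_succ, Finset.sum_range_one, QT_coeff_zero, re_coeff, re_coeff]
    simp only [Nat.sub_zero, Nat.sub_self, hA0]
    push_cast
    ring
  have v1 : ∀ y : Fin m → UnitAddCircle, (QT y * re A').coeff (D + 1) = 1 := by
    intro y
    rw [hcoef, hhi y _ (by omega), if_pos le_rfl, if_neg (by omega), Nat.sub_self, QT_coeff_zero]; ring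
  have v2 : ∀ y : Fin m → UnitAddCircle, (QT y * re A').coeff (D + 2) = (QT y * re A).coeff 1 := by
    intro y
    rw [hcoef, hhi y _ (by omega), if_pos (by omega), if_pos le_rfl, Nat.sub_self, QT_coeff_zero, hone,
      show D + 2 - (D + 1) = 1 by omega]; ring
  have vlow : ∀ (y : Fin m → UnitAddCircle) (k : ℕ), k ≤ D → (QT y * re A').coeff k = (QT y * re A).coeff k := by
    intro y k hk
    rw [hcoef, if_neg (by omega), if_neg (by omega)]; ring
  have hA'0 : A'.coeff 0 = 1 := by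
    rw [hA', coeff_add, hA0]; simp
  have hAdm : Adm A' (D + 2) y0 := by
    refine ⟨hA'0, ?_⟩
    intro k hk1 hk2
    rcases Nat.lt_or_ge k D with h1 | h1
    · rw [vlow _ _ h1.le]; exact hA1 k (by omega) h1
    rcases Nat.lt_or_ge k (D + 1) with h2 | h2
    · have : k = D := by omega
      rw [this, vlow _ _ le_rfl, htop]; exact ⟨one_pos, le_rfl⟩
    rcases Nat.lt_or_ge k (D + 2) with h3 | h3
    · have : k = D + 1 := by omega
      rw [this, v1]; exact ⟨one_pos, le_rfl⟩
    · have : k = D + 2 := by omega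
      rw [this, v2]; exact hA1 1 (by omega) (by omega)
  obtain ⟨U, hUo, hyU, ε, hε, hU⟩ := local_digits hy0 hAdm
  refine ⟨U, hUo, hyU, ε, hε, ?_⟩
  intro n hn hb hmem
  have hB : 1 < β ^ n := one_lt_pow₀ hβ (by omega)
  have hB0 : β ^ n ≠ 0 := by positivity
  have h1 := orb_digits hB0 (Fac_re hfac hn) (coeff_zero_of hA'0 _) (hU _ hmem _ (by positivity) hb)
  refine ⟨D + 2, by omega, 1, by omega, ?_⟩
  rw [h1 (D + 2) le_rfl, h1 1 (by omega), show D + 2 = (D + 1) + 1 by rfl, hp_mul_coeff_succ,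
    show (1 : ℕ) = 0 + 1 by rfl, hp_mul_coeff_succ, show D + 1 + (0 + 1) = D + 2 by rfl, v2,
    coeff_zero_of hA'0, zero_add, vlow _ 1 (by omega), v1]

/-- points outside of `WW` -/
theorem not_ev_of_not_WW {β : ℝ} {m : ℕ} {θ : Fin m → ℝ} (hm : 1 ≤ m) (hβ : 1 < β) (hint : IsIntegral ℤ β)
    (hfac : Fac β m θ) {s : ℕ} {y0 : Fin m → UnitAddCircle} (hy0 : y0 ∉ ZZ m) (hW : y0 ∉ WW m s) :
    ∃ U : Set (Fin m → UnitAddCircle), IsOpen U ∧ y0 ∈ U ∧ ∃ ε : ℝ, 0 < ε ∧
      ∀ n : ℕ, 1 ≤ n → (β ^ n)⁻¹ ≤ ε → pt θ n ∈ U → ¬ Ev (β ^ n) s := by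
  classical
  obtain ⟨A, hAdm⟩ := exists_adm y0 s
  obtain ⟨U, hUo, hyU, ε, hε, hU⟩ := local_digits hy0 hAdm
  refine ⟨U, hUo, hyU, ε, hε, ?_⟩
  intro n hn hb hmem hEv
  apply hW
  have hA0 := hAdm.1
  have hB : 1 < β ^ n := one_lt_pow₀ hβ (by omega)
  have hB0 : β ^ n ≠ 0 := by positivity
  have hF := Fac_re hfac hn
  have horb := orb_digits hB0 hF (coeff_zero_of hA0 _) (hU _ hmem _ (by positivity) hb)
  have hwin := window hB0 (hint.pow n) hF (hfac n hn).1 (QT_coeff_zero _) (QT_natDegree _)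
  -- all values at `y0`
  have hval : ∀ k, k ≤ s → 0 < (QT y0 * re A).coeff k ∧ (QT y0 * re A).coeff k ≤ 1 := by
    intro k hk
    rcases Nat.eq_zero_or_pos k with h0 | h0
    · rw [h0, coeff_zero_of hA0]; exact ⟨one_pos, le_rfl⟩
    · exact hAdm.2 k h0 hk
  -- the first repetition
  set k := Nat.find hEv with hk
  obtain ⟨hks, j, hjk, hkj⟩ : k ≤ s ∧ ∃ j, j < k ∧ orb (β ^ n) k = orb (β ^ n) j := Nat.find_spec hEv
  have hmin : ∀ k', k' < k → ∀ j', j' < k' → orb (β ^ n) k' ≠ orb (β ^ n) j' := by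
    intro k' hk' j' hj' heq
    exact Nat.find_min hEv hk' ⟨by omega, j', hj', heq⟩
  have hj1 : 1 ≤ j := by
    by_contra h0
    have h1 : j = 0 := by omega
    rw [h1, orb_zero] at hkj
    obtain ⟨k', hk'⟩ : ∃ k', k = k' + 1 := ⟨k - 1, by omega⟩
    rw [hk', orb_succ] at hkj
    have := Int.fract_lt_one (β ^ n * orb (β ^ n) k')
    linarith
  -- the difference
  set d := k - j with hd
  set E : ℤ[X] := A - X ^ d * A with hE
  have hEre : ∀ (P : ℝ[X]) (i : ℕ), (P * re E).coeff i =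
      (P * re A).coeff i - (if d ≤ i then (P * re A).coeff (i - d) else 0) := by
    intro P i
    have h1 : P * re E = P * re A - P * re A * X ^ d := by
      rw [hE]
      simp only [re, Polynomial.map_sub, Polynomial.map_mul, Polynomial.map_pow, map_X]
      ring
    rw [h1, coeff_sub, coeff_mul_X_pow']
  have hEc : ∀ i, E.coeff i = A.coeff i - (if d ≤ i then A.coeff (i - d) else 0) := by
    intro i
    rw [hE, coeff_sub, coeff_X_pow_mul']
  have hk0 : (hp (β ^ n)⁻¹ (QT (pt θ n)) * re E).coeff k = 0 := by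
    rw [hEre, if_pos (by omega), show k - d = j by omega, ← horb k hks, ← horb j (by omega), hkj, sub_self]
  have hwk := hwin E k hk0
  -- `j = 1`
  have hj : j = 1 := by
    by_contra hj2
    have hj2 : 2 ≤ j := by omega
    -- the next coefficient
    have hnext : 2 * m + 2 ≤ k → E.coeff (k - (2 * m + 2)) = 0 := by
      intro hmk
      have h1 := hEre (QT y0) (k - 2)
      rw [if_pos (by omega), show k - 2 - d = j - 2 by omega] at h1
      have h2 : (QT y0 * re E).coeff (k - 2) = (E.coeff (k - (2 * m + 2)) : ℝ) := by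
        rw [coeff_mul, Finset.Nat.sum_antidiagonal_eq_sum_range_succ (fun i j => (QT y0).coeff i * (re E).coeff j)]
        rw [Finset.sum_eq_single (2 * m)]
        · rw [QT_coeff_top, re_coeff, one_mul, show k - 2 - 2 * m = k - (2 * m + 2) by omega]
        · intro l hl hne
          rw [mem_range] at hl
          rcases Nat.lt_or_ge l (2 * m) with h3 | h3
          · have h4 := hwk (l + 2) (by omega) (by omega)
            rw [re_coeff, show k - 2 - l = k - (l + 2) by omega, h4]; simp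
          · rw [coeff_eq_zero_of_natDegree_lt (by rw [QT_natDegree]; omega), zero_mul]
        · intro hnot
          rw [mem_range] at hnot
          omega
      have v1 := hval (k - 2) (by omega)
      have v2 := hval (j - 2) (by omega)
      rw [h2] at h1
      have h3 : |(E.coeff (k - (2 * m + 2)) : ℝ)| < 1 := by
        rw [h1, abs_lt]; constructor <;> linarith [v1.1, v1.2, v2.1, v2.2]
      have h4 : |E.coeff (k - (2 * m + 2))| < 1 := by exact_mod_cast h3
      exact Int.abs_lt_one_iff.1 h4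
    -- equality one step earlier
    have h1 : (hp (β ^ n)⁻¹ (QT (pt θ n)) * re E).coeff (k - 1) = 0 := by
      rw [coeff_mul, Finset.Nat.sum_antidiagonal_eq_sum_range_succ
        (fun i j => (hp (β ^ n)⁻¹ (QT (pt θ n))).coeff i * (re E).coeff j)]
      apply Finset.sum_eq_zero
      intro l hl
      rw [mem_range] at hl
      rcases Nat.lt_or_ge (2 * m + 1) l with h3 | h3
      · obtain ⟨l', rfl⟩ : ∃ l', l = l' + 1 := ⟨l - 1, by omega⟩
        rw [hp_coeff_succ, coeff_eq_zero_of_natDegree_lt (by rw [QT_natDegree]; omega),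
          coeff_eq_zero_of_natDegree_lt (by rw [QT_natDegree]; omega)]
        ring
      · have h4 : E.coeff (k - (l + 1)) = 0 := by
          rcases Nat.lt_or_ge l (2 * m + 1) with h5 | h5
          · exact hwk (l + 1) (by omega) (by omega)
          · have h6 : l + 1 = 2 * m + 2 := by omega
            rw [h6]; exact hnext (by omega)
        rw [re_coeff, show k - 1 - l = k - (l + 1) by omega, h4]; simp
    rw [hEre, if_pos (by omega), show k - 1 - d = j - 1 by omega, ← horb (k - 1) (by omega),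
      ← horb (j - 1) (by omega)] at h1
    exact hmin (k - 1) (by omega) (j - 1) (by omega) (by linarith)
  subst hj
  have hd1 : d = k - 1 := hd
  -- the digits before the return
  have hz : ∀ l, 2 ≤ l → l ≤ 2 * m + 1 → l ≤ k → A.coeff (k - l) = 0 := by
    intro l hl2 hl hlk
    have h1 := hwk l hl hlk
    rw [hEc, if_neg (by omega), sub_zero] at h1
    exact h1
  have hk2 : 2 * m + 2 ≤ k := by
    by_contra hcon
    have h1 := hz k (by omega) (by omega) le_rfl
    rw [Nat.sub_self, hA0] at h1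
    exact one_ne_zero h1
  -- the polynomial
  set N := k - (2 * m + 1) with hN
  have hN1 : 1 ≤ N := by omega
  set P : ℤ[X] := ∑ i ∈ range N, C (A.coeff i) * X ^ i with hP
  have hPc : ∀ i, P.coeff i = if i < N then A.coeff i else 0 := by
    intro i
    rw [hP, finsetSum_coeff]
    simp only [coeff_C_mul_X_pow]
    rw [Finset.sum_ite_eq]
    simp only [mem_range]
  have hPA : ∀ i, i ≤ k - 2 → P.coeff i = A.coeff i := by
    intro i hi
    rw [hPc]
    split_ifs with h1
    · rfl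
    · rw [not_lt] at h1
      have h2 := hz (k - i) (by omega) (by omega) (by omega)
      rw [show k - (k - i) = i by omega] at h2
      exact h2.symm
  have hQP : ∀ (y : Fin m → UnitAddCircle) (i : ℕ), i ≤ k - 2 → (QT y * re P).coeff i = (QT y * re A).coeff i := by
    intro y i hi
    rw [coeff_mul, coeff_mul]
    apply Finset.sum_congr rfl
    intro x hx
    rw [Finset.HasAntidiagonal.mem_antidiagonal] at hx
    rw [re_coeff, re_coeff, hPA x.2 (by omega)]
  -- the leading coefficient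
  have hlead : A.coeff (N - 1) = 1 := by
    have h1 : (QT y0 * re A).coeff (k - 2) = (A.coeff (N - 1) : ℝ) := by
      rw [coeff_mul, Finset.Nat.sum_antidiagonal_eq_sum_range_succ (fun i j => (QT y0).coeff i * (re A).coeff j)]
      rw [Finset.sum_eq_single (2 * m)]
      · rw [QT_coeff_top, re_coeff, one_mul, show k - 2 - 2 * m = N - 1 by omega]
      · intro l hl hne
        rw [mem_range] at hl
        rcases Nat.lt_or_ge l (2 * m) with h3 | h3
        · have h4 := hz (l + 2) (by omega) (by omega) (by omega)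
          rw [re_coeff, show k - 2 - l = k - (l + 2) by omega, h4]; simp
        · rw [coeff_eq_zero_of_natDegree_lt (by rw [QT_natDegree]; omega), zero_mul]
      · intro hnot
        rw [mem_range] at hnot
        omega
    have h2 := hval (k - 2) (by omega)
    rw [h1] at h2
    have h3 : 0 < A.coeff (N - 1) := by exact_mod_cast h2.1
    have h4 : A.coeff (N - 1) ≤ 1 := by exact_mod_cast h2.2
    omega
  have hPdeg : P.natDegree ≤ N - 1 := by
    rw [hP]
    apply natDegree_sum_le_of_forall_le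
    intro i hi
    rw [mem_range] at hi
    exact (natDegree_C_mul_X_pow_le _ _).trans (by omega)
  have hPlead : P.coeff (N - 1) = 1 := by rw [hPc, if_pos (by omega), hlead]
  have hPm : P.Monic := monic_of_natDegree_le_of_coeff_eq_one _ hPdeg hPlead
  have hPd : P.natDegree = N - 1 := by
    apply le_antisymm hPdeg
    apply le_natDegree_of_ne_zero
    rw [hPlead]; exact one_ne_zero
  refine ⟨P, hPm, ?_, ?_, ?_⟩
  · rw [hPc, if_pos (by omega), hA0]
  · rw [hPd]; omega
  · intro i hi0 hi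
    rw [hPd] at hi
    rw [hQP y0 i (by omega)]
    exact hval i (by omega)

/-- the limit law -/
theorem limit_law {β : ℝ} {m : ℕ} {θ : Fin m → ℝ} (hm : 1 ≤ m) (hβ : 1 < β) (hint : IsIntegral ℤ β)
    (hfac : Fac β m θ) (hθ : ∀ k : Fin m → ℤ, k ≠ 0 → Irrational (∑ j, (k j : ℝ) * θ j)) {e : ℕ → ℕ} (he : Good e)
    (s : ℕ) : Tendsto (fun N : ℕ => (cnt (fun n => Ev (β ^ (e n)) s) N : ℝ) / N) atTop
      (𝓝 (volume (WW m s)).toReal) := by
  classical
  set δ := (volume (WW m s)).toReal with hδ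
  have hZ := vol_ZZ m
  have key : ∀ (S : Set (Fin m → UnitAddCircle)) (P : ℕ → Prop),
      (∀ y0 ∈ S, ∃ U : Set (Fin m → UnitAddCircle), IsOpen U ∧ y0 ∈ U ∧ ∃ ε : ℝ, 0 < ε ∧
        ∀ n : ℕ, 1 ≤ n → (β ^ n)⁻¹ ≤ ε → pt θ n ∈ U → P n) → ∀ c : ℝ, c < (volume S).toReal →
      ∀ᶠ N : ℕ in atTop, c * N ≤ (cnt (fun n => P (e n)) N : ℝ) := by
    intro S P h c hc
    choose! U hUo hyU ε hε hP using h
    have hsub : S ⊆ ⋃ y : S, U y := by
      intro y hy
      exact Set.mem_iUnion.2 ⟨⟨y, hy⟩, hyU y hy⟩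
    refine lower_density (equi_of_good hθ he) (fun y : S => U y) (fun y => hUo y y.2) _ ?_
      (lt_of_lt_of_le hc (ENNReal.toReal_mono (measure_ne_top _ _) (measure_mono hsub)))
    rintro ⟨y, hy⟩
    filter_upwards [ev_large hβ he.1 (ε y) (hε y hy)] with n hn hmem
    exact hP y hy (e n) hn.1 hn.2 hmem
  rw [Metric.tendsto_atTop]
  intro η hη
  have hv1 : δ ≤ (volume (WW m s \ ZZ m)).toReal := by
    apply ENNReal.toReal_mono (measure_ne_top _ _)
    rw [measure_sdiff_null hZ]
  have hlow := key (WW m s \ ZZ m) (fun n => Ev (β ^ n) s)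
    (fun y0 hy => ev_of_WW hm hβ hfac hy.2 hy.1) (δ - η / 2) (by linarith)
  have hv2 : 1 - δ ≤ (volume ((WW m s ∪ ZZ m)ᶜ)).toReal := by
    have h1 : (1 : ENNReal) ≤ volume (WW m s ∪ ZZ m) + volume ((WW m s ∪ ZZ m)ᶜ) := by
      rw [← measure_univ (μ := (volume : Measure (Fin m → UnitAddCircle))), ← Set.union_compl_self (WW m s ∪ ZZ m)]
      exact measure_union_le _ _
    have h2 : volume (WW m s ∪ ZZ m) = volume (WW m s) := by
      apply le_antisymm
      · refine (measure_union_le _ _).trans ?_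
        rw [hZ, add_zero]
      · exact measure_mono Set.subset_union_left
    rw [h2] at h1
    have h3 := ENNReal.toReal_mono (ENNReal.add_ne_top.2 ⟨measure_ne_top _ _, measure_ne_top _ _⟩) h1
    rw [ENNReal.toReal_add (measure_ne_top _ _) (measure_ne_top _ _), ENNReal.toReal_one] at h3
    linarith
  have hup := key ((WW m s ∪ ZZ m)ᶜ) (fun n => ¬ Ev (β ^ n) s)
    (fun y0 hy => by
      rw [Set.mem_compl_iff, Set.mem_union, not_or] at hy
      exact not_ev_of_not_WW hm hβ hint hfac hy.2 hy.1) (1 - δ - η / 2) (by linarith)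
  obtain ⟨N0, hN0⟩ := eventually_atTop.1 (hlow.and (hup.and (eventually_gt_atTop 0)))
  refine ⟨N0, fun N hN => ?_⟩
  obtain ⟨h1, h2, h3⟩ := hN0 N hN
  have hNpos : (0 : ℝ) < N := by exact_mod_cast h3
  have h4 := cnt_add (fun n => Ev (β ^ (e n)) s) N
  have h5 : (cnt (fun n => Ev (β ^ (e n)) s) N : ℝ) + (cnt (fun n => ¬ Ev (β ^ (e n)) s) N : ℝ) = N := by
    exact_mod_cast h4
  rw [Real.dist_eq, abs_lt]
  constructor
  · rw [lt_sub_iff_add_lt, lt_div_iff₀ hNpos]
    nlinarith
  · rw [sub_lt_iff_lt_add, div_lt_iff₀ hNpos]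
    nlinarith

end Pool.Agent.K9h56.PD
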