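import Mathlib
import Pool.Agent.K9h56.PD.Law

/-!
# The limit law: final form
-/

set_option autoImplicit false

namespace Pool.Agent.K9h56.PD

open Polynomial Finset Filter Topology MeasureTheory Pool.Agent.H446R3.SK Pool.Agent.H767R2
open Pool.Agent.H196R3.Parry Pool.Agent.R329.Par

theorem ev_iff (B : ℝ) (s : ℕ) : Ev B s ↔ (Set.range (orb B)).Finite ∧ (Set.range (orb B)).ncard ≤ s := by
  constructor
  · rintro ⟨k, hks, j, hjk, h⟩
    refine ⟨finite_orb hjk h, ?_⟩
    have h1 : ∀ n : ℕ, ∃ i : ℕ, i < k ∧ orb B n = orb B i := by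
      intro n
      induction n with
      | zero => exact ⟨0, by omega, rfl⟩
      | succ n ih =>
        obtain ⟨i, hi, hn⟩ := ih
        have h2 : orb B (n + 1) = orb B (i + 1) := by rw [orb_succ, orb_succ, hn]
        rcases Nat.lt_or_ge (i + 1) k with h3 | h3
        · exact ⟨i + 1, h3, h2⟩
        · have h4 : i + 1 = k := by omega
          exact ⟨j, hjk, by rw [h2, h4, h]⟩
    have h2 : Set.range (orb B) ⊆ ((range k).image (orb B) : Finset ℝ) := by
      rintro _ ⟨n, rfl⟩
      obtain ⟨i, hi, hn⟩ := h1 n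
      rw [Finset.coe_image]
      exact ⟨i, by simpa using hi, hn.symm⟩
    refine (Set.ncard_le_ncard h2 (Finset.finite_toSet _)).trans ?_
    rw [Set.ncard_coe_finset]
    refine Finset.card_image_le.trans ?_
    rw [card_range]; exact hks
  · rintro ⟨hfin, hcard⟩
    by_contra hcon
    have hinj : ∀ j k, j < k → k ≤ s → orb B k ≠ orb B j := by
      intro j k hjk hks heq
      exact hcon ⟨k, hks, j, hjk, heq⟩
    have h1 : (((range (s + 1)).image (orb B) : Finset ℝ) : Set ℝ) ⊆ Set.range (orb B) := by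
      intro x hx
      rw [Finset.coe_image] at hx
      obtain ⟨n, _, rfl⟩ := hx
      exact ⟨n, rfl⟩
    have h2 := Set.ncard_le_ncard h1 hfin
    rw [Set.ncard_coe_finset, Finset.card_image_of_injOn, card_range] at h2
    · omega
    · intro a ha b hb hab
      simp only [coe_range, Set.mem_Iio] at ha hb
      rcases Nat.lt_trichotomy a b with h | h | h
      · exact absurd hab.symm (hinj a b h (by omega))
      · exact h
      · exact absurd hab (hinj b a h (by omega))

theorem cnt_eq (P : ℕ → Prop) (N : ℕ) : cnt P N = {n : ℕ | n < N ∧ P n}.ncard := by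
  classical
  unfold cnt
  rw [← Set.ncard_coe_finset]
  congr 1
  ext n
  simp

/-- eventually equal bounded sequences have the same averages -/
theorem cav_congr {a b : ℕ → ℂ} (ha : ∀ n, ‖a n‖ ≤ 1) (hb : ∀ n, ‖b n‖ ≤ 1) (h : ∀ᶠ n in atTop, a n = b n)
    (hlim : Tendsto (cav b) atTop (𝓝 0)) : Tendsto (cav a) atTop (𝓝 0) := by
  obtain ⟨M, hM⟩ := eventually_atTop.1 h
  have h1 : Tendsto (fun N : ℕ => cav a N - cav b N) atTop (𝓝 0) := by
    rw [tendsto_zero_iff_norm_tendsto_zero]
    have h2 : Tendsto (fun N : ℕ => (2 * M : ℝ) / N) atTop (𝓝 0) := tendsto_const_div_atTop_nhds_zero_nat _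
    refine squeeze_zero (fun N => norm_nonneg _) (fun N => ?_) h2
    have h3 : cav a N - cav b N = (1 / (N : ℂ)) * ∑ n ∈ range N, (a n - b n) := by
      unfold cav; rw [Finset.sum_sub_distrib]; ring
    rw [h3, norm_mul, norm_div, norm_one, Complex.norm_natCast]
    have h4 : ‖∑ n ∈ range N, (a n - b n)‖ ≤ 2 * M := by
      have h5 : ∑ n ∈ range N, (a n - b n) = ∑ n ∈ (range N).filter (fun n => n < M), (a n - b n) := by
        rw [Finset.sum_filter]
        apply Finset.sum_congr rfl
        intro n _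
        split_ifs with h6
        · rfl
        · rw [hM n (not_lt.1 h6), sub_self]
      rw [h5]
      calc ‖∑ n ∈ (range N).filter (fun n => n < M), (a n - b n)‖
          ≤ ∑ n ∈ (range N).filter (fun n => n < M), ‖a n - b n‖ := norm_sum_le _ _
        _ ≤ ∑ n ∈ (range N).filter (fun n => n < M), (2 : ℝ) := by
            apply Finset.sum_le_sum
            intro n _
            refine (norm_sub_le _ _).trans ?_
            linarith [ha n, hb n]
        _ ≤ 2 * M := by
            rw [Finset.sum_const, nsmul_eq_mul, mul_comm]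
            apply mul_le_mul_of_nonneg_left _ (by norm_num)
            have h7 : (range N).filter (fun n => n < M) ⊆ range M := by
              intro n hn; rw [mem_filter] at hn; exact mem_range.2 hn.2
            have h8 := Finset.card_le_card h7
            rw [card_range] at h8
            exact_mod_cast h8
    rw [div_mul_eq_mul_div, one_mul]
    exact div_le_div_of_nonneg_right h4 (by positivity)
  have h2 := h1.add hlim
  rw [add_zero] at h2
  refine h2.congr fun N => ?_
  ring

/-- values of polynomials -/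
theorem good_poly (P : ℤ[X]) (hd : 0 < P.natDegree) (hl : 0 < P.leadingCoeff) :
    Good (fun n : ℕ => (P.eval (n : ℤ)).toNat) := by
  have hinj : Function.Injective (Int.castRingHom ℝ) := Int.cast_injective
  have hPR : Tendsto (fun n : ℕ => ((P.eval (n : ℤ) : ℤ) : ℝ)) atTop atTop := by
    have h1 : Tendsto (fun x : ℝ => (P.map (Int.castRingHom ℝ)).eval x) atTop atTop := by
      apply Polynomial.tendsto_atTop_of_leadingCoeff_nonneg
      · rw [degree_map_eq_of_injective hinj]
        exact natDegree_pos_iff_degree_pos.1 hd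
      · rw [leadingCoeff_map_of_injective hinj]
        have : (0 : ℝ) < ((P.leadingCoeff : ℤ) : ℝ) := by exact_mod_cast hl
        exact this.le
    refine (h1.comp tendsto_natCast_atTop_atTop).congr fun n => ?_
    simp only [Function.comp]
    have h2 := Polynomial.eval_natCast_map (Int.castRingHom ℝ) P n
    rw [h2]; rfl
  have hPZ : Tendsto (fun n : ℕ => P.eval (n : ℤ)) atTop atTop := by
    rw [← tendsto_intCast_atTop_iff (R := ℝ)]
    exact hPR
  refine ⟨?_, ?_⟩
  · rw [tendsto_atTop]
    intro b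
    filter_upwards [hPZ.eventually_ge_atTop (b : ℤ)] with n hn
    omega
  · intro α hα
    have h1 : Tendsto (cav fun n => ee ((C α * P.map (Int.castRingHom ℝ)).eval (n : ℝ))) atTop (𝓝 0) := by
      apply weyl_poly
      refine ⟨P.natDegree, hd, ?_⟩
      rw [coeff_C_mul, coeff_map]
      have h2 : P.coeff P.natDegree ≠ 0 := hl.ne'
      exact hα.mul_intCast h2
    refine cav_congr (fun n => (norm_ee _).le) (fun n => (norm_ee _).le) ?_ h1
    filter_upwards [hPZ.eventually_ge_atTop 0] with n hn
    congr 1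
    rw [eval_mul, eval_C]
    congr 1
    have h2 := Polynomial.eval_natCast_map (Int.castRingHom ℝ) P n
    rw [h2]
    have h3 : (((P.eval (n : ℤ)).toNat : ℕ) : ℤ) = P.eval (n : ℤ) := Int.toNat_of_nonneg hn
    have h4 : (((P.eval (n : ℤ)).toNat : ℕ) : ℝ) = (((P.eval (n : ℤ)).toNat : ℕ) : ℤ) := by push_cast; rfl
    rw [h4, h3]; rfl

/-! ### The limit distribution -/

/-- the limit distribution function -/
noncomputable def GF (m s : ℕ) : ℝ := (volume (WW m s)).toReal

theorem WW_mono (m : ℕ) : Monotone (WW m) := by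
  intro s t hst y hy
  obtain ⟨A, h1, h2, h3, h4⟩ := hy
  exact ⟨A, h1, h2, h3.trans hst, h4⟩

theorem GF_mono (m : ℕ) : Monotone (GF m) := fun s t hst =>
  ENNReal.toReal_mono (measure_ne_top _ _) (measure_mono (WW_mono m hst))

theorem GF_le_one (m s : ℕ) : GF m s ≤ 1 := by
  unfold GF
  have := ENNReal.toReal_mono ENNReal.one_ne_top (prob_le_one (μ := (volume : Measure (Fin m → UnitAddCircle)))
    (s := WW m s))
  simpa using this

theorem GF_zero {m s : ℕ} (h : s < 2 * m + 2) : GF m s = 0 := by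
  have h1 : WW m s = ∅ := by
    ext y
    simp only [Set.mem_empty_iff_false, iff_false]
    rintro ⟨A, _, _, h3, _⟩
    omega
  unfold GF
  rw [h1, measure_empty, ENNReal.toReal_zero]

theorem GF_pos {m : ℕ} (hm : 1 ≤ m) : 0 < GF m (2 * m + 2) := by
  refine lt_of_lt_of_le (vol_pos hm) (ENNReal.toReal_mono (measure_ne_top _ _) (measure_mono ?_))
  intro y hy
  rw [Reg_one, Set.mem_ofPred_eq] at hy
  refine ⟨1, monic_one, by simp, by simp, ?_⟩
  intro k hk0 hk
  have h1 := hy k hk0 (by simpa using hk)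
  simp only [re, Polynomial.map_one, mul_one]
  exact ⟨h1.1, h1.2.le⟩

/-- the limit law for Salem numbers -/
theorem salem_law {β : ℝ} (h : IsSalem β) {m : ℕ} (hm : (minpoly ℤ β).natDegree = 2 * m + 2) {e : ℕ → ℕ} (he : Good e)
    (s : ℕ) : Tendsto (fun N : ℕ => ({n : ℕ | n < N ∧ (Set.range (orb (β ^ (e n)))).Finite ∧
      (Set.range (orb (β ^ (e n)))).ncard ≤ s}.ncard : ℝ) / N) atTop (𝓝 (GF m s)) := by
  obtain ⟨m', hm', θ, hfac, hθ⟩ := salem_data h
  have h1 := (hfac 1 le_rfl).1
  rw [pow_one, hm] at h1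
  have h2 : m = m' := by omega
  subst h2
  refine (limit_law hm' h.1 h.2.1 hfac hθ he s).congr fun N => ?_
  rw [cnt_eq]
  simp only [ev_iff]

/-- consequence for the lower density of the Parry powers -/
theorem salem_lower {β : ℝ} (h : IsSalem β) {m : ℕ} (hm : (minpoly ℤ β).natDegree = 2 * m + 2) {e : ℕ → ℕ}
    (he : Good e) (s : ℕ) {c : ℝ} (hc : c < GF m s) :
    ∀ᶠ N : ℕ in atTop, c * N ≤ ({n : ℕ | n < N ∧ (Set.range (orb (β ^ (e n)))).Finite}.ncard : ℝ) := by
  have h1 := (salem_law h hm he s).eventually_const_lt hc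
  filter_upwards [h1, eventually_gt_atTop 0] with N h2 h3
  have hN : (0 : ℝ) < N := by exact_mod_cast h3
  rw [lt_div_iff₀ hN] at h2
  refine h2.le.trans ?_
  have h4 : {n : ℕ | n < N ∧ (Set.range (orb (β ^ (e n)))).Finite ∧ (Set.range (orb (β ^ (e n)))).ncard ≤ s}.ncard ≤
      {n : ℕ | n < N ∧ (Set.range (orb (β ^ (e n)))).Finite}.ncard := by
    apply Set.ncard_le_ncard
    · rintro n ⟨a, b, _⟩; exact ⟨a, b⟩
    · exact (Set.finite_lt_nat N).subset fun n hn => hn.1
  exact_mod_cast h4

theorem salem_degree {β : ℝ} (h : IsSalem β) : ∃ m : ℕ, 1 ≤ m ∧ (minpoly ℤ β).natDegree = 2 * m + 2 := by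
  obtain ⟨m', hm', θ, hfac, hθ⟩ := salem_data h
  have h1 := (hfac 1 le_rfl).1
  rw [pow_one] at h1
  exact ⟨m', hm', h1⟩

end Pool.Agent.K9h56.PD
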